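import Mathlib

set_option autoImplicit false

namespace Pool.Agent.Lib.MP_fb430f_co

open Finset

lemma div_bound {ε : ℝ} (hε : 0 < ε) : ∃ C : ℝ, 0 < C ∧ ∀ M : ℕ, M ≠ 0 →
    ((∏ p ∈ M.primeFactors, (M.factorization p + 2) : ℕ) : ℝ) ≤ C * (M : ℝ) ^ ε := by
  set η := ε * Real.log 2 with hη
  have hη0 : 0 < η := mul_pos hε (Real.log_pos one_lt_two)
  obtain ⟨B, hB⟩ := exists_nat_ge ((3 : ℝ) ^ (1 / ε))
  have h0 : (1 : ℝ) ≤ 2 + 1 / η := by have := one_div_pos.2 hη0; linarith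
  refine ⟨(2 + 1 / η) ^ B, by positivity, fun M hM => ?_⟩
  have key : ∀ p ∈ M.primeFactors, ((M.factorization p + 2 : ℕ) : ℝ) ≤
      (if p < B then 2 + 1 / η else 1) * (((p ^ M.factorization p : ℕ) : ℝ)) ^ ε := by
    intro p hp
    have hp' := Nat.prime_of_mem_primeFactors hp
    have he : 1 ≤ M.factorization p :=
      (hp'.dvd_iff_one_le_factorization hM).1 (Nat.dvd_of_mem_primeFactors hp)
    generalize M.factorization p = e at he
    have hp2 : (2 : ℝ) ≤ p := by exact_mod_cast hp'.two_le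
    have e1 : (((p ^ e : ℕ) : ℝ)) ^ ε = ((p : ℝ) ^ ε) ^ e := by
      rw [Nat.cast_pow, ← Real.rpow_natCast, ← Real.rpow_mul (by linarith), mul_comm,
        Real.rpow_mul_natCast (by linarith)]
    rw [e1]
    split_ifs with h
    · have h1 : Real.exp η ≤ (p : ℝ) ^ ε := by
        rw [hη, mul_comm, ← Real.rpow_def_of_pos two_pos]
        exact Real.rpow_le_rpow (by norm_num) hp2 hε.le
      have h2 : 1 + e * η ≤ ((p : ℝ) ^ ε) ^ e := by
        refine le_trans ?_ (pow_le_pow_left₀ (Real.exp_pos _).le h1 e)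
        rw [← Real.exp_nat_mul]
        linarith [Real.add_one_le_exp (e * η)]
      refine le_trans ?_ (mul_le_mul_of_nonneg_left h2 (by linarith))
      have h3 : (2 + 1 / η) * (1 + e * η) = 2 + e + (1 / η + 2 * e * η) := by field_simp; ring
      rw [h3]
      push_cast
      have : 0 ≤ 1 / η + 2 * e * η := by positivity
      linarith
    · have h1 : (3 : ℝ) ≤ (p : ℝ) ^ ε := by
        have h2 : (3 : ℝ) ^ (1 / ε) ≤ p := hB.trans (by exact_mod_cast not_lt.1 h)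
        have := Real.rpow_le_rpow (by positivity) h2 hε.le
        rwa [← Real.rpow_mul (by norm_num), one_div_mul_cancel hε.ne', Real.rpow_one] at this
      rw [one_mul]
      refine le_trans ?_ (pow_le_pow_left₀ (by norm_num) h1 e)
      have : e + 2 ≤ 3 ^ e := by
        clear e1
        induction e, he using Nat.le_induction with
        | base => norm_num
        | succ e _ ih => rw [pow_succ]; omega
      exact_mod_cast this
  rw [Nat.cast_prod]
  refine (prod_le_prod (fun _ _ => by positivity) key).trans ?_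
  rw [prod_mul_distrib, Real.finsetProd_rpow _ _ (fun _ _ => by positivity), ← Nat.cast_prod]
  have h1 : ∏ p ∈ M.primeFactors, p ^ M.factorization p = M := Nat.prod_factorization_pow_eq_self hM
  rw [h1]
  refine mul_le_mul_of_nonneg_right ?_ (by positivity)
  rw [prod_ite, prod_const, prod_const_one, mul_one]
  refine pow_le_pow_right₀ h0 ((card_le_card fun p hp => ?_).trans (card_range B).le)
  exact mem_range.2 (mem_filter.1 hp).2

lemma local_color (p : ℕ) (hp : p.Prime) (Δ : ℤ) (M : ℕ) (hM : M ≠ 0) :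
    ∃ (c : ℤ × ℤ → ℝ) (R : Finset ℝ), R.card ≤ M.factorization p + 2 ∧
      (∀ a : ℤ × ℤ, a.1 ^ 2 + Δ * a.2 ^ 2 = M → c a ∈ R) ∧
      ∀ a b : ℤ × ℤ, a.1 ^ 2 + Δ * a.2 ^ 2 = M → b.1 ^ 2 + Δ * b.2 ^ 2 = M → c a = c b →
        (p ^ M.factorization p : ℤ) ∣ 2 * (a.1 * b.1 + Δ * a.2 * b.2) := by
  classical
  have := Fact.mk hp
  set e := M.factorization p with he
  obtain ⟨i, hi⟩ := IsAlgClosed.exists_pow_nat_eq (-(Δ : PadicAlgCl p)) two_pos
  have hn : ∀ k : ℤ, ‖(k : PadicAlgCl p)‖ = ‖(k : ℚ_[p])‖ := fun k => by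
    rw [← PadicAlgCl.norm_extends]; simp
  have hp1 : (1 : ℝ) < p := by exact_mod_cast hp.one_lt
  have hMn : ‖((M : ℤ) : PadicAlgCl p)‖ = (p : ℝ) ^ (-e : ℤ) := by
    rw [hn, Padic.norm_eq_zpow_neg_valuation (by exact_mod_cast hM), Int.cast_natCast,
      Padic.valuation_natCast, he, Nat.factorization_def _ hp]
  have hi1 : ‖i‖ ≤ 1 := by
    have : ‖i‖ ^ 2 ≤ 1 := by rw [← norm_pow, hi, norm_neg, hn]; exact Padic.norm_int_le_one _
    nlinarith [norm_nonneg i]
  let z : ℤ × ℤ → PadicAlgCl p := fun a => a.1 + a.2 * i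
  let w : ℤ × ℤ → PadicAlgCl p := fun a => a.1 - a.2 * i
  have hzw : ∀ a : ℤ × ℤ, a.1 ^ 2 + Δ * a.2 ^ 2 = M → ‖z a‖ * ‖w a‖ = (p : ℝ) ^ (-e : ℤ) :=
    fun a ha => by
      rw [← norm_mul, ← hMn, ← ha]
      congr 1
      simp only [z, w]
      push_cast
      linear_combination (-(a.2 : PadicAlgCl p) ^ 2) * hi
  have hb : ∀ (a : ℤ × ℤ), ‖(a.2 : PadicAlgCl p) * i‖ ≤ 1 := fun a => by
    rw [norm_mul, hn]
    exact mul_le_one₀ (Padic.norm_int_le_one _) (norm_nonneg _) hi1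
  have hz1 : ∀ a, ‖z a‖ ≤ 1 := fun a => (IsUltrametricDist.norm_add_le_max _ _).trans
    (max_le (by rw [hn]; exact Padic.norm_int_le_one _) (hb a))
  have hw1 : ∀ a, ‖w a‖ ≤ 1 := fun a => by
    simp only [w, sub_eq_add_neg]
    exact (IsUltrametricDist.norm_add_le_max _ _).trans
      (max_le (by rw [hn]; exact Padic.norm_int_le_one _) (by rw [norm_neg]; exact hb a))
  have hpos : (0 : ℝ) < (p : ℝ) ^ (-e : ℤ) := by positivity
  refine ⟨fun a => ‖z a‖, insert √((p : ℝ) ^ (-e : ℤ))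
    ((range (e + 1)).image fun j : ℕ => (p : ℝ) ^ (-j : ℤ)), ?_, fun a ha => ?_,
    fun a b ha hb h => ?_⟩
  · refine (card_insert_le _ _).trans ?_
    have := card_image_le (s := range (e + 1)) (f := fun j : ℕ => (p : ℝ) ^ (-j : ℤ))
    rw [card_range] at this
    omega
  · have h1 := hzw a ha
    by_cases h : ‖z a‖ = ‖w a‖
    · rw [← h1, ← h, Real.sqrt_mul_self (norm_nonneg _)]
      exact mem_insert_self _ _
    · refine mem_insert_of_mem (mem_image.2 ?_)
      have h2 := IsUltrametricDist.norm_add_eq_max_of_norm_ne_norm h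
      have h3 : z a + w a = ((2 * a.1 : ℤ) : PadicAlgCl p) := by simp only [z, w]; push_cast; ring
      have hz0 : 0 < ‖z a‖ := by
        rcases (norm_nonneg (z a)).lt_or_eq with h4 | h4
        · exact h4
        · rw [← h4, zero_mul] at h1; linarith
      have h4 : ((2 * a.1 : ℤ) : ℚ_[p]) ≠ 0 := fun h0 => by
        rw [h3, hn, h0, norm_zero] at h2
        linarith [le_max_left ‖z a‖ ‖w a‖]
      rw [h3, hn, Padic.norm_eq_zpow_neg_valuation h4, Padic.valuation_intCast] at h2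
      generalize padicValInt p (2 * a.1) = j at h2
      have hj : j ≤ e := by
        have h5 : (p : ℝ) ^ (-e : ℤ) ≤ (p : ℝ) ^ (-j : ℤ) := by
          rw [← h1, h2]
          exact (mul_le_of_le_one_right (norm_nonneg _) (hw1 a)).trans (le_max_left _ _)
        rw [zpow_le_zpow_iff_right₀ hp1] at h5
        omega
      rcases le_total ‖z a‖ ‖w a‖ with h5 | h5
      · rw [max_eq_right h5] at h2
        refine ⟨e - j, mem_range.2 (by omega), ?_⟩
        rw [← h2] at h1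
        rw [eq_comm, ← mul_left_inj' (zpow_ne_zero (-j : ℤ) (by linarith : (p : ℝ) ≠ 0)), h1,
          ← zpow_add₀ (by linarith), Nat.cast_sub hj]
        congr 1; ring
      · rw [max_eq_left h5] at h2
        exact ⟨j, mem_range.2 (by omega), h2⟩
  · have h1 := hzw a ha
    have h2 := hzw b hb
    simp only at h
    have h3 : ‖w a‖ = ‖w b‖ := by
      have hz0 : ‖z b‖ ≠ 0 := fun h0 => by rw [h0, zero_mul] at h2; linarith
      rw [h, ← h2] at h1
      exact mul_left_cancel₀ hz0 h1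
    rw [← Padic.norm_int_le_pow_iff_dvd, ← hn]
    have h4 : ((2 * (a.1 * b.1 + Δ * a.2 * b.2) : ℤ) : PadicAlgCl p) = z a * w b + w a * z b := by
      simp only [z, w]
      push_cast
      linear_combination (2 * (a.2 : PadicAlgCl p) * b.2) * hi
    rw [h4]
    refine (IsUltrametricDist.norm_add_le_max _ _).trans (max_le ?_ ?_)
    · rw [norm_mul, h, h2]
    · rw [norm_mul, h3, mul_comm, h2]

lemma form_bound (Δ : ℤ) (hΔ : 0 < Δ) (M : ℕ) (hM : M ≠ 0) (A : Finset (ℤ × ℤ))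
    (hA : ∀ a ∈ A, a.1 ^ 2 + Δ * a.2 ^ 2 = M) :
    A.card ≤ 10 * ∏ p ∈ M.primeFactors, (M.factorization p + 2) := by
  classical
  choose! c R hR hc hc' using fun p (hp : p.Prime) => local_color p hp Δ M hM
  have hP : ∀ p ∈ M.primeFactors, p.Prime := fun p hp => Nat.prime_of_mem_primeFactors hp
  refine (card_le_mul_card_image_of_maps_to (f := fun a (p : ℕ) (_ : p ∈ M.primeFactors) => c p a)
    (t := M.primeFactors.pi R) (fun a ha => mem_pi.2 fun p hp => hc p (hP p hp) a (hA a ha)) 10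
    fun f _ => ?_).trans ?_
  · rcases (A.filter fun a => (fun (p : ℕ) (_ : p ∈ M.primeFactors) => c p a) = f).eq_empty_or_nonempty
      with h | ⟨a, ha⟩
    · rw [h]; simp
    obtain ⟨haA, ha⟩ := mem_filter.1 ha
    have hM' : (0 : ℤ) < M := by exact_mod_cast Nat.pos_of_ne_zero hM
    have key : ∀ b ∈ A, (fun (p : ℕ) (_ : p ∈ M.primeFactors) => c p b) = f →
        (M : ℤ) ∣ 2 * (a.1 * b.1 + Δ * a.2 * b.2) := by
      intro b hb h
      rw [← Int.dvd_natAbs, Int.natCast_dvd_natCast, Nat.dvd_iff_prime_pow_dvd_dvd]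
      intro p k hp hk
      rcases Nat.eq_zero_or_pos k with rfl | hk0
      · simp
      have hp' : p ∈ M.primeFactors :=
        Nat.mem_primeFactors.2 ⟨hp, (dvd_pow_self p hk0.ne').trans hk, hM⟩
      have h1 := hc' p hp a b (hA a haA) (hA b hb) (congrFun (congrFun (ha.trans h.symm) p) hp')
      rw [← Int.dvd_natAbs] at h1
      exact (pow_dvd_pow p ((hp.pow_dvd_iff_le_factorization hM).1 hk)).trans (by exact_mod_cast h1)
    have idn : ∀ b ∈ A, (a.1 * b.1 + Δ * a.2 * b.2) ^ 2 + Δ * (a.1 * b.2 - b.1 * a.2) ^ 2 = M ^ 2 :=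
      fun b hb => by
        have h1 := hA a haA
        have h2 := hA b hb
        linear_combination (b.1 ^ 2 + Δ * b.2 ^ 2) * h1 + (M : ℤ) * h2
    refine (card_le_card_of_injOn (t := Icc (-2 : ℤ) 2 ×ˢ (univ : Finset Bool))
      (fun b => (2 * (a.1 * b.1 + Δ * a.2 * b.2) / M, decide (0 ≤ a.1 * b.2 - b.1 * a.2)))
      (fun b hb => ?_) fun b hb b' hb' h => ?_).trans (by simp)
    · obtain ⟨hbA, hb⟩ := mem_filter.1 hb
      obtain ⟨j, hj⟩ := key b hbA hb
      have h1 := idn b hbA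
      have h2 : |a.1 * b.1 + Δ * a.2 * b.2| ≤ M :=
        abs_le_of_sq_le_sq (by nlinarith [sq_nonneg (a.1 * b.2 - b.1 * a.2)]) hM'.le
      rw [abs_le] at h2
      simp only [coe_product, Set.mem_prod, coe_Icc, Set.mem_Icc, coe_univ, Set.mem_univ, and_true,
        hj, Int.mul_ediv_cancel_left _ hM'.ne']
      constructor <;> nlinarith
    · obtain ⟨hbA, hb⟩ := mem_filter.1 hb
      obtain ⟨hbA', hb'⟩ := mem_filter.1 hb'
      obtain ⟨j, hj⟩ := key b hbA hb
      obtain ⟨j', hj'⟩ := key b' hbA' hb'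
      simp only [Prod.mk.injEq, hj, hj', Int.mul_ediv_cancel_left _ hM'.ne', decide_eq_decide] at h
      have h1 : a.1 * b.1 + Δ * a.2 * b.2 = a.1 * b'.1 + Δ * a.2 * b'.2 := by
        rw [h.1] at hj; linarith
      have h2 : (a.1 * b.2 - b.1 * a.2) ^ 2 = (a.1 * b'.2 - b'.1 * a.2) ^ 2 := by
        have h3 := idn b hbA
        have h4 := idn b' hbA'
        rw [h1] at h3
        exact mul_left_cancel₀ hΔ.ne' (by linarith)
      have h3 : a.1 * b.2 - b.1 * a.2 = a.1 * b'.2 - b'.1 * a.2 := by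
        rcases sq_eq_sq_iff_eq_or_eq_neg.1 h2 with h4 | h4
        · exact h4
        · have := h.2
          omega
      have h4 := hA a haA
      refine Prod.ext (mul_left_cancel₀ hM'.ne' ?_) (mul_left_cancel₀ hM'.ne' ?_)
      · rw [← h4]; linear_combination a.1 * h1 - Δ * a.2 * h3
      · rw [← h4]; linear_combination a.2 * h1 + a.1 * h3
  · rw [card_pi]
    exact Nat.mul_le_mul_left _ (prod_le_prod' fun p hp => hR p (hP p hp))

lemma dot_pos {x : Fin 4 → ℤ} (h : x ≠ 0) : 0 < x ⬝ᵥ x :=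
  lt_of_le_of_ne (sum_nonneg fun _ _ => mul_self_nonneg _)
    fun h' => h (dotProduct_self_eq_zero.1 h'.symm)

lemma circle_bound {ε : ℝ} (hε : 0 < ε) : ∃ C : ℝ, 0 < C ∧ ∀ n : ℕ, 1 ≤ n →
    ∀ v v' : Fin 4 → ℤ, v ≠ 0 → v' ≠ 0 → v ≠ v' → ∀ A : Finset (Fin 4 → ℤ),
      (∀ a ∈ A, a ⬝ᵥ a = n ^ 2 ∧ 2 * (a ⬝ᵥ v) = v ⬝ᵥ v ∧ 2 * (a ⬝ᵥ v') = v' ⬝ᵥ v') →
      (A.card : ℝ) ≤ C * (n : ℝ) ^ ε := by
  classical
  obtain ⟨C, hC, hdiv⟩ := div_bound (ε := ε / 8) (by linarith)
  refine ⟨2 + 10 * C * 256 ^ (ε / 8), by positivity, fun n hn v v' hv hv' hvv A hA => ?_⟩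
  have hn1 : (1 : ℝ) ≤ (n : ℝ) ^ ε := Real.one_le_rpow (by exact_mod_cast hn) hε.le
  by_cases h2 : A.card ≤ 2
  · have : (A.card : ℝ) ≤ 2 := by exact_mod_cast h2
    have : 0 ≤ 10 * C * 256 ^ (ε / 8) := by positivity
    nlinarith
  obtain ⟨p0, p1, p2, h0, h1, h2, h01, h02, h12⟩ := two_lt_card_iff.1 (not_le.1 h2)
  have dist : ∀ a ∈ A, ∀ b ∈ A, (a - b) ⬝ᵥ (a - b) ≤ 4 * n ^ 2 := fun a ha b hb => by
    have h3 : 0 ≤ (a + b) ⬝ᵥ (a + b) := sum_nonneg fun _ _ => mul_self_nonneg _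
    have h4 := (hA a ha).1
    have h5 := (hA b hb).1
    simp only [add_dotProduct, dotProduct_add, sub_dotProduct, dotProduct_sub] at h3 ⊢
    linarith
  have sph : ∀ a ∈ A, 2 * (p0 ⬝ᵥ (a - p0)) = -((a - p0) ⬝ᵥ (a - p0)) := fun a ha => by
    have h4 := (hA a ha).1
    have h5 := (hA p0 h0).1
    simp only [sub_dotProduct, dotProduct_sub, dotProduct_comm p0 a]
    linarith
  have orth : ∀ a ∈ A, (a - p0) ⬝ᵥ v = 0 ∧ (a - p0) ⬝ᵥ v' = 0 := fun a ha => by
    have h4 := hA a ha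
    have h5 := hA p0 h0
    simp only [sub_dotProduct]
    constructor <;> linarith [h4.2.1, h4.2.2, h5.2.1, h5.2.2]
  have hG : p1 - p2 = (p1 - p0) - (p2 - p0) := by abel
  have hα := dot_pos (sub_ne_zero.2 h01.symm)
  have hγ := dot_pos (sub_ne_zero.2 h02.symm)
  have hg := dot_pos (sub_ne_zero.2 h12)
  have b1 := dist _ h1 _ h0
  have b2 := dist _ h2 _ h0
  have b3 := dist _ h1 _ h2
  have s1 := sph _ h1
  have s2 := sph _ h2
  have o1 := orth _ h1
  have o2 := orth _ h2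
  rw [hG] at hg b3
  generalize p1 - p0 = e1 at *
  generalize p2 - p0 = e2 at *
  have indep : ∀ a b : ℤ, a • e1 + b • e2 = 0 → a = 0 ∧ b = 0 := fun a b h => by
    have h3 := congrArg (fun x => x ⬝ᵥ e1) h
    have h4 := congrArg (fun x => x ⬝ᵥ e2) h
    have h5 := congrArg (fun x => p0 ⬝ᵥ x) h
    simp only [add_dotProduct, smul_dotProduct, zero_dotProduct, smul_eq_mul, dotProduct_add,
      dotProduct_smul, dotProduct_zero, sub_dotProduct, dotProduct_sub,
      dotProduct_comm e2 e1] at h3 h4 h5 hg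
    have h6 : a * (e1 ⬝ᵥ e1) + b * (e2 ⬝ᵥ e2) = 0 := by linear_combination a * s1 + b * s2 - 2 * h5
    have h7 : b * (e2 ⬝ᵥ e2 - e1 ⬝ᵥ e2) = 0 := by linarith
    have h8 : a * (e1 ⬝ᵥ e1 - e1 ⬝ᵥ e2) = 0 := by linarith
    by_contra hn
    have ha : a ≠ 0 := fun h => hn ⟨h, by
      rw [h, zero_mul, zero_add] at h6; exact (mul_eq_zero.1 h6).resolve_right hγ.ne'⟩
    have hb : b ≠ 0 := fun h => hn ⟨by
      rw [h, zero_mul, add_zero] at h6; exact (mul_eq_zero.1 h6).resolve_right hα.ne', h⟩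
    have := (mul_eq_zero.1 h7).resolve_left hb
    have := (mul_eq_zero.1 h8).resolve_left ha
    linarith
  have indep' : ∀ a b : ℤ, a • v + b • v' = 0 → a = 0 ∧ b = 0 := fun a b h => by
    have h3 := congrArg (fun x => x ⬝ᵥ v) h
    have h4 := congrArg (fun x => x ⬝ᵥ v') h
    have h5 := congrArg (fun x => p0 ⬝ᵥ x) h
    have hg' := dot_pos (sub_ne_zero.2 hvv)
    simp only [add_dotProduct, smul_dotProduct, zero_dotProduct, smul_eq_mul, dotProduct_add,
      dotProduct_smul, dotProduct_zero, sub_dotProduct, dotProduct_sub,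
      dotProduct_comm v' v] at h3 h4 h5 hg'
    have h6 : a * (v ⬝ᵥ v) + b * (v' ⬝ᵥ v') = 0 := by
      linear_combination 2 * h5 - a * (hA p0 h0).2.1 - b * (hA p0 h0).2.2
    have h7 : b * (v' ⬝ᵥ v' - v ⬝ᵥ v') = 0 := by linarith
    have h8 : a * (v ⬝ᵥ v - v ⬝ᵥ v') = 0 := by linarith
    by_contra hn
    have ha : a ≠ 0 := fun h => hn ⟨h, by
      rw [h, zero_mul, zero_add] at h6; exact (mul_eq_zero.1 h6).resolve_right (dot_pos hv').ne'⟩
    have hb : b ≠ 0 := fun h => hn ⟨by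
      rw [h, zero_mul, add_zero] at h6; exact (mul_eq_zero.1 h6).resolve_right (dot_pos hv).ne', h⟩
    have := (mul_eq_zero.1 h7).resolve_left hb
    have := (mul_eq_zero.1 h8).resolve_left ha
    linarith
  have span : ∀ g : Fin 4 → ℤ, g ⬝ᵥ v = 0 → g ⬝ᵥ v' = 0 →
      ∃ a b c : ℤ, c ≠ 0 ∧ c • g = a • e1 + b • e2 := fun g hg1 hg2 => by
    have hl : ¬ LinearIndependent ℤ ![v, v', e1, e2, g] := fun hl => by
      have := hl.fintype_card_le_finrank
      simp at this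
    obtain ⟨c, hc, i, hi⟩ := Fintype.not_linearIndependent_iff.1 hl
    simp only [Fin.sum_univ_five, Matrix.cons_val] at hc
    have h3 : c 0 • v + c 1 • v' = 0 := by
      rw [← dotProduct_self_eq_zero]
      have h4 : c 0 • v + c 1 • v' = -(c 2 • e1 + c 3 • e2 + c 4 • g) := by
        rw [eq_neg_iff_add_eq_zero, ← hc]; abel
      nth_rewrite 1 [h4]
      simp only [neg_dotProduct, add_dotProduct, dotProduct_add, smul_dotProduct, dotProduct_smul,
        o1.1, o1.2, o2.1, o2.2, hg1, hg2, smul_zero, add_zero, neg_zero]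
    obtain ⟨h4, h5⟩ := indep' _ _ h3
    rw [h3, zero_add] at hc
    refine ⟨-c 2, -c 3, c 4, fun h6 => hi ?_, ?_⟩
    · rw [h6, zero_smul, add_zero] at hc
      obtain ⟨h7, h8⟩ := indep _ _ hc
      fin_cases i <;> assumption
    · rw [neg_smul, neg_smul, ← neg_add, eq_neg_iff_add_eq_zero, add_comm, hc]
  have hΔ : 0 < (e1 ⬝ᵥ e1) * (e2 ⬝ᵥ e2) - (e1 ⬝ᵥ e2) ^ 2 := by
    have h3 : (-(e1 ⬝ᵥ e2)) • e1 + (e1 ⬝ᵥ e1) • e2 ≠ 0 := fun h => hα.ne' (indep _ _ h).2
    have h4 := dot_pos h3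
    simp only [add_dotProduct, smul_dotProduct, smul_eq_mul, dotProduct_add,
      dotProduct_smul, dotProduct_comm e2 e1] at h4
    by_contra h5
    nlinarith
  obtain ⟨M, hM⟩ := Int.eq_ofNat_of_zero_le (a := (e1 ⬝ᵥ e1) ^ 2 * (e2 ⬝ᵥ e2) *
    ((e1 - e2) ⬝ᵥ (e1 - e2))) (by positivity)
  have hM0 : M ≠ 0 := fun h => by
    rw [h] at hM
    exact absurd hM (by positivity)
  have hM1 : (M : ℝ) ≤ 256 * (n : ℝ) ^ 8 := by
    have : (M : ℤ) ≤ (4 * n ^ 2) ^ 2 * (4 * n ^ 2) * (4 * n ^ 2) := by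
      rw [← hM]; gcongr
    have h3 : (M : ℤ) ≤ 256 * n ^ 8 := this.trans (le_of_eq (by ring))
    exact_mod_cast h3
  let f : (Fin 4 → ℤ) → ℤ × ℤ := fun a =>
    (2 * ((e1 ⬝ᵥ e1) * (a ⬝ᵥ e2) - (e1 ⬝ᵥ e2) * (a ⬝ᵥ e1)), 2 * (a ⬝ᵥ e1))
  have hf : Set.InjOn f A := fun a ha b hb h => by
    obtain ⟨x, y, c, hc, h3⟩ := span (a - b)
      (by rw [← sub_sub_sub_cancel_right a b p0, sub_dotProduct, (orth a ha).1, (orth b hb).1]; simp)
      (by rw [← sub_sub_sub_cancel_right a b p0, sub_dotProduct, (orth a ha).2, (orth b hb).2]; simp)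
    simp only [f, Prod.mk.injEq] at h
    have h4 : a ⬝ᵥ e1 = b ⬝ᵥ e1 := by linarith [h.2]
    have h5 : a ⬝ᵥ e2 = b ⬝ᵥ e2 := by
      rw [h4] at h
      exact mul_left_cancel₀ hα.ne' (by linarith [h.1])
    have h6 : (c • (a - b)) ⬝ᵥ (c • (a - b)) = 0 := by
      nth_rewrite 2 [h3]
      simp only [dotProduct_add, smul_dotProduct, dotProduct_smul, sub_dotProduct, h4, h5,
        sub_self, smul_zero, add_zero]
    rw [dotProduct_self_eq_zero, smul_eq_zero] at h6
    exact sub_eq_zero.1 (h6.resolve_left hc)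
  have h3 := form_bound _ hΔ M hM0 (A.image f) (forall_mem_image.2 fun a ha => by
    obtain ⟨x, y, c, hc, h3⟩ := span (a - p0) (orth a ha).1 (orth a ha).2
    have h4 := congrArg (fun z => z ⬝ᵥ e1) h3
    have h5 := congrArg (fun z => z ⬝ᵥ e2) h3
    have h6 := congrArg (fun z => z ⬝ᵥ (a + p0)) h3
    have h7 := (hA a ha).1
    have h8 := (hA p0 h0).1
    simp only [add_dotProduct, smul_dotProduct, smul_eq_mul, dotProduct_add, sub_dotProduct,
      dotProduct_comm e2 e1, dotProduct_comm e1 a, dotProduct_comm e2 a, dotProduct_comm e1 p0,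
      dotProduct_comm e2 p0, dotProduct_comm p0 a] at h4 h5 h6
    rw [← hM]
    simp only [f, sub_dotProduct, dotProduct_sub, dotProduct_comm e2 e1]
    refine mul_left_cancel₀ hc ?_
    generalize e1 ⬝ᵥ e1 = α at *
    generalize e1 ⬝ᵥ e2 = β at *
    generalize e2 ⬝ᵥ e2 = γ at *
    generalize a ⬝ᵥ e1 = s at *
    generalize a ⬝ᵥ e2 = t at *
    generalize p0 ⬝ᵥ e1 = s0 at *
    generalize p0 ⬝ᵥ e2 = t0 at *
    have h9 : x * (s + s0) + y * (t + t0) = 0 := by linear_combination c * h7 - c * h8 - h6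
    have e1 : α = -(2 * s0) := by linarith
    have e2 : γ = -(2 * t0) := by linarith
    linear_combination (4 * α * (γ * (s + s0) - β * (t + t0))) * h4 +
      (4 * α * (α * (t + t0) - β * (s + s0))) * h5 + (4 * α * (α * γ - β ^ 2)) * h9 +
      (c * α * (γ * (2 * s0 - α) - 2 * β * (2 * t0))) * s1 +
      (c * α * (α * (2 * t0 - γ) + 2 * β * α)) * s2)
  rw [card_image_of_injOn hf] at h3
  have h4 : (A.card : ℝ) ≤ 10 * (C * (M : ℝ) ^ (ε / 8)) :=
    le_trans (by exact_mod_cast h3) (mul_le_mul_of_nonneg_left (hdiv M hM0) (by norm_num))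
  have h5 : (M : ℝ) ^ (ε / 8) ≤ 256 ^ (ε / 8) * (n : ℝ) ^ ε := by
    refine (Real.rpow_le_rpow (by positivity) hM1 (by linarith)).trans (le_of_eq ?_)
    rw [Real.mul_rpow (by norm_num) (by positivity), ← Real.rpow_natCast,
      ← Real.rpow_mul (by positivity)]
    congr 2; push_cast; ring
  nlinarith [mul_le_mul_of_nonneg_left h5 hC.le]

end Pool.Agent.Lib.MP_fb430f_co
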