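import Mathlib

set_option autoImplicit false

namespace Pool.Agent.Lib.MP_fb430f_co

open Finset MvPolynomial

variable {n : ℕ}

lemma exists_dep {ι : Type*} [Fintype ι] (p : ι → MvPolynomial (Fin n) ℝ) (Δ : ℕ)
    (hp : ∀ i, (p i).totalDegree ≤ Δ) (h : (Δ + 1) ^ n < Fintype.card ι) :
    ∃ c : ι → ℝ, c ≠ 0 ∧ ∑ i, c i • p i = 0 := by
  classical
  let q : ι → (Fin n → Fin (Δ + 1)) → ℝ := fun i α =>
    coeff (Finsupp.equivFunOnFinite.symm fun j => (α j : ℕ)) (p i)
  have hq : ¬ LinearIndependent ℝ q := fun hl => by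
    have := hl.fintype_card_le_finrank
    simp at this
    omega
  obtain ⟨c, hc, i, hi⟩ := Fintype.not_linearIndependent_iff.1 hq
  refine ⟨c, fun h0 => hi (by rw [h0]; rfl), ?_⟩
  ext m
  rw [coeff_sum, coeff_zero]
  by_cases hm : ∀ j, m j ≤ Δ
  · have := congrFun hc fun j => ⟨m j, Nat.lt_succ_of_le (hm j)⟩
    simpa [q] using this
  · refine sum_eq_zero fun i _ => ?_
    push Not at hm
    obtain ⟨j, hj⟩ := hm
    rw [coeff_smul, coeff_eq_zero_of_totalDegree_lt, smul_zero]
    refine lt_of_le_of_lt (hp i) (lt_of_lt_of_le hj ?_)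
    exact single_le_sum (f := fun j => m j) (fun _ _ => Nat.zero_le _)
      (Finsupp.mem_support_iff.2 (by omega))

lemma totalDegree_pderiv_le (i : Fin n) (p : MvPolynomial (Fin n) ℝ) :
    (pderiv i p).totalDegree ≤ p.totalDegree := by
  conv_lhs => rw [p.as_sum, map_sum]
  refine totalDegree_finsetSum_le fun m hm => ?_
  rw [pderiv_monomial]
  refine (totalDegree_monomial_le _ _).trans (le_trans ?_ (le_totalDegree hm))
  rw [Finsupp.sum_fintype _ _ (fun _ => rfl), Finsupp.sum_fintype _ _ (fun _ => rfl)]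
  exact sum_le_sum fun j _ => by simp

lemma hasDerivAt_eval (z : Fin n → ℝ) (i : Fin n) (p : MvPolynomial (Fin n) ℝ) :
    HasDerivAt (fun t => eval (Function.update z i t) p) (eval z (pderiv i p)) (z i) := by
  induction p using MvPolynomial.induction_on with
  | C a => simpa using hasDerivAt_const (z i) a
  | add p q hp hq => simp only [map_add]; exact hp.add hq
  | mul_X p j hp =>
    have h1 : HasDerivAt (fun t => Function.update z i t j) (if j = i then 1 else 0) (z i) := by
      by_cases h : j = i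
      · subst h; simp only [Function.update_self, if_true]; exact hasDerivAt_id' (z j)
      · simpa [h] using hasDerivAt_const (z i) (z j)
    have h2 := hp.mul h1
    simp only [Function.update_eq_self] at h2
    simp only [map_mul, eval_X]
    refine h2.congr_deriv ?_
    by_cases h : j = i
    · subst h; simp; ring
    · simp [h, pderiv_X_of_ne h, mul_comm]

lemma exists_crit (G : MvPolynomial (Fin n) ℝ) {U : Set (Fin n → ℝ)} (hU : IsOpen U)
    (hb : Bornology.IsBounded U) (hG : ∀ y ∈ closure U, eval y G ≠ 0 ↔ y ∈ U) (v : Fin n → ℝ)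
    {x : Fin n → ℝ} (hx : x ∈ U) :
    ∃ z ∈ connectedComponentIn U x, ∀ i, eval z (pderiv i G) = v i * eval z G := by
  let ψ : (Fin n → ℝ) → ℝ := fun y => (eval y G) ^ 2 * Real.exp (-(2 * ∑ j, v j * y j))
  have hψ : Continuous ψ := by
    have := G.continuous_eval
    fun_prop
  have hsub := connectedComponentIn_subset U x
  have hx' := mem_connectedComponentIn hx
  obtain ⟨z, hz, hmax⟩ := (hb.subset hsub).isCompact_closure.exists_isMaxOn
    ⟨x, subset_closure hx'⟩ hψ.continuousOn
  have hzG : eval z G ≠ 0 := fun h => by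
    have h1 : ψ x ≤ ψ z := hmax (subset_closure hx')
    have h2 : 0 < ψ x := mul_pos (sq_pos_of_ne_zero ((hG x (subset_closure hx)).2 hx))
      (Real.exp_pos _)
    simp only [ψ, h] at h1 h2
    linarith
  have hzU : z ∈ U := (hG z (closure_mono hsub hz)).1 hzG
  have hzc : z ∈ connectedComponentIn U x := by
    have h1 : IsPreconnected (insert z (connectedComponentIn U x)) :=
      isPreconnected_connectedComponentIn.subset_closure (Set.subset_insert _ _)
        (Set.insert_subset hz subset_closure)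
    exact h1.subset_connectedComponentIn (Set.mem_insert_of_mem _ hx')
      (Set.insert_subset hzU hsub) (Set.mem_insert _ _)
  refine ⟨z, hzc, fun i => ?_⟩
  have hloc : IsLocalMax ψ z :=
    (hmax.on_subset subset_closure).isLocalMax (hU.connectedComponentIn.mem_nhds hzc)
  have hloc' : IsLocalMax (fun t => ψ (Function.update z i t)) (z i) := by
    refine IsLocalMax.comp_continuous (f := ψ) (g := fun t => Function.update z i t) ?_ ?_
    · simpa using hloc
    · exact (continuous_const.update i continuous_id).continuousAt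
  have h1 := hasDerivAt_eval z i (∑ j, C (v j) * X j)
  have h2 : eval z (pderiv i (∑ j, C (v j) * X j : MvPolynomial (Fin n) ℝ)) = v i := by
    simp [pderiv_X, Pi.single_apply]
  rw [h2] at h1
  simp only [map_sum, map_mul, eval_C, eval_X] at h1
  have h3 := hloc'.hasDerivAt_eq_zero
    (((hasDerivAt_eval z i G).pow 2).mul ((h1.const_mul 2).neg.exp))
  simp only [Function.update_eq_self, Pi.pow_apply, Pi.neg_apply] at h3
  have h4 := Real.exp_pos (-(2 * ∑ j, v j * z j))
  have h5 : 2 * eval z G * Real.exp (-(2 * ∑ j, v j * z j)) *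
      (eval z (pderiv i G) - v i * eval z G) = 0 := by
    rw [← h3]; norm_num; ring
  have h6 : 2 * eval z G * Real.exp (-(2 * ∑ j, v j * z j)) ≠ 0 := by positivity
  exact sub_eq_zero.1 ((mul_eq_zero.1 h5).resolve_left h6)

lemma exists_rel (G ℓ : MvPolynomial (Fin n) ℝ) {e : ℕ} (hG : G.totalDegree ≤ e)
    (hℓ : ℓ.totalDegree ≤ 1) : ∃ q : MvPolynomial (Fin n) ℝ, q ≠ 0 ∧ ∀ v, eval v q ≠ 0 →
      ∃ r : Polynomial ℝ, r ≠ 0 ∧ r.natDegree ≤ (n * e + 1) ^ n ∧ ∀ z, eval z G ≠ 0 →
        (∀ i, eval z (pderiv i G) = v i * eval z G) → r.IsRoot (eval z ℓ) := by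
  classical
  set J := (n * e + 1) ^ n with hJ
  obtain ⟨c, hc, hrel⟩ := exists_dep (ι := (Fin n → Fin (J + 1)) × Fin (J + 1))
    (fun a => (∏ i, pderiv i G ^ (a.1 i : ℕ) * G ^ (J - a.1 i)) * ℓ ^ (a.2 : ℕ))
    (n * (J * e) + J) (fun a => by
      refine (totalDegree_mul _ _).trans (add_le_add ?_ ?_)
      · refine (totalDegree_finsetProd _ _).trans ?_
        refine (sum_le_card_nsmul _ _ (J * e) fun i _ => ?_).trans (by simp)
        refine (totalDegree_mul _ _).trans ?_
        have h1 := (totalDegree_pow (pderiv i G) (a.1 i)).trans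
          (Nat.mul_le_mul_left _ ((totalDegree_pderiv_le i G).trans hG))
        have h2 := (totalDegree_pow G (J - a.1 i)).trans (Nat.mul_le_mul_left _ hG)
        have h3 : (a.1 i : ℕ) + (J - a.1 i) = J := by have := (a.1 i).2; omega
        calc _ ≤ (a.1 i : ℕ) * e + (J - a.1 i) * e := add_le_add h1 h2
          _ = J * e := by rw [← add_mul, h3]
      · have := a.2.2
        exact (totalDegree_pow _ _).trans ((Nat.mul_le_mul_left _ hℓ).trans (by omega)))
    (by
      simp only [Fintype.card_prod, Fintype.card_pi, Fintype.card_fin, prod_const, card_univ]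
      calc (n * (J * e) + J + 1) ^ n ≤ ((J + 1) * (n * e + 1)) ^ n :=
            Nat.pow_le_pow_left (by nlinarith) _
        _ = (J + 1) ^ n * J := by rw [mul_pow]
        _ < (J + 1) ^ n * (J + 1) := Nat.mul_lt_mul_of_pos_left (by omega) (by positivity))
  obtain ⟨⟨α, j⟩, hαj⟩ := Function.ne_iff.1 hc
  let emb : (Fin n → Fin (J + 1)) → (Fin n →₀ ℕ) := fun β =>
    Finsupp.equivFunOnFinite.symm fun i => (β i : ℕ)
  have hemb : Function.Injective emb := fun β γ h => funext fun i =>
    Fin.ext (by simpa [emb] using DFunLike.congr_fun h i)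
  let q : Fin (J + 1) → MvPolynomial (Fin n) ℝ := fun k => ∑ β, monomial (emb β) (c (β, k))
  have hq : ∀ k v, eval v (q k) = ∑ β, c (β, k) * ∏ i, v i ^ (β i : ℕ) := fun k v => by
    simp only [q, map_sum, eval_monomial]
    refine sum_congr rfl fun β _ => ?_
    rw [Finsupp.prod_fintype _ _ (fun _ => pow_zero _)]
    simp [emb]
  refine ⟨q j, fun h => hαj ?_, fun v hv => ⟨∑ k : Fin (J + 1), Polynomial.monomial k (eval v (q k)),
    fun h => hv ?_, ?_, fun z hz hcrit => ?_⟩⟩
  · have := congrArg (coeff (emb α)) h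
    simpa [q, coeff_sum, coeff_monomial, hemb.eq_iff] using this
  · have := congrArg (fun r => Polynomial.coeff r j) h
    simpa [Polynomial.coeff_monomial, Fin.val_inj] using this
  · refine Polynomial.natDegree_sum_le_of_forall_le _ _ fun k _ => ?_
    have := k.2
    exact (Polynomial.natDegree_monomial_le _).trans (by omega)
  · have h1 := congrArg (eval z) hrel
    simp only [map_sum, smul_eval, map_mul, map_prod, map_pow, hcrit, map_zero] at h1
    have h2 : ∀ β : Fin n → Fin (J + 1), ∏ i, (v i * eval z G) ^ (β i : ℕ) * eval z G ^ (J - β i) =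
        (∏ i, v i ^ (β i : ℕ)) * (eval z G ^ J) ^ n := fun β => by
      rw [← Fin.prod_const, ← prod_mul_distrib]
      refine prod_congr rfl fun i _ => ?_
      have h3 : (β i : ℕ) + (J - β i) = J := by have := (β i).2; omega
      rw [mul_pow, mul_assoc, ← pow_add, h3]
    simp only [h2] at h1
    have h3 : (eval z G ^ J) ^ n ≠ 0 := pow_ne_zero _ (pow_ne_zero _ hz)
    rw [Polynomial.IsRoot, ← mul_eq_zero_iff_right h3, ← h1, Fintype.sum_prod_type_right,
      Polynomial.eval_finsetSum, sum_mul]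
    refine sum_congr rfl fun k _ => ?_
    rw [Polynomial.eval_monomial, hq, sum_mul, sum_mul]
    exact sum_congr rfl fun β _ => by ring

lemma exists_sep (Z : Finset (Fin n → ℝ)) (S : Finset ℝ) (hS : Z.card * Z.card * n < S.card) :
    ∃ τ ∈ S, Set.InjOn (fun z : Fin n → ℝ => ∑ i : Fin n, τ ^ (i : ℕ) * z i) Z := by
  classical
  let p : (Fin n → ℝ) × (Fin n → ℝ) → Polynomial ℝ := fun a =>
    ∑ i : Fin n, Polynomial.monomial i (a.1 i - a.2 i)
  obtain ⟨τ, hτ, hτ'⟩ := exists_mem_notMem_of_card_lt_card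
    (s := (Z ×ˢ Z).biUnion fun a => (p a).roots.toFinset) (t := S) (by
      refine lt_of_le_of_lt (card_biUnion_le_card_mul _ _ n fun a _ => ?_) (by simpa using hS)
      refine (Multiset.toFinset_card_le _).trans ((Polynomial.card_roots' _).trans ?_)
      exact Polynomial.natDegree_sum_le_of_forall_le _ _ fun k _ =>
        (Polynomial.natDegree_monomial_le _).trans k.2.le)
  refine ⟨τ, hτ, fun z hz z' hz' h => ?_⟩
  by_contra hne
  refine hτ' (mem_biUnion.2 ⟨(z, z'), mem_product.2 ⟨hz, hz'⟩, ?_⟩)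
  rw [Multiset.mem_toFinset, Polynomial.mem_roots']
  refine ⟨fun h0 => hne (funext fun i => ?_), ?_⟩
  · have := congrArg (fun r => Polynomial.coeff r i) h0
    simpa [p, Polynomial.coeff_monomial, Fin.val_inj, sub_eq_zero] using this
  · simp only at h
    simp only [p, Polynomial.IsRoot, Polynomial.eval_finsetSum, Polynomial.eval_monomial, sub_mul,
      sum_sub_distrib, sub_eq_zero]
    simpa only [mul_comm] using h

/-- The connected component of a point in the complement of the zero set of a polynomial. -/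
def cell (F : MvPolynomial (Fin n) ℝ) (x : Fin n → ℝ) : Set (Fin n → ℝ) :=
  connectedComponentIn {y | eval y F ≠ 0} x

/-- Bound for the number of connected components of the complement of a hypersurface. -/
theorem cell_bound (F : MvPolynomial (Fin n) ℝ) {d : ℕ} (hF : F.totalDegree ≤ d)
    (T : Finset (Fin n → ℝ)) (hT : ∀ x ∈ T, eval x F ≠ 0) (hinj : Set.InjOn (cell F) T) :
    T.card ≤ (n * (d + 2) + 1) ^ n := by
  classical
  obtain ⟨R, hR⟩ : ∃ R : ℝ, ∀ x ∈ T, ∑ i, x i ^ 2 < R := by
    obtain ⟨R, hR⟩ := (T.finite_toSet.image fun x => ∑ i, x i ^ 2).bddAbove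
    exact ⟨R + 1, fun x hx => by linarith [hR ⟨x, hx, rfl⟩]⟩
  let G : MvPolynomial (Fin n) ℝ := F * (C R - ∑ i, X i ^ 2)
  have hGe : ∀ y, eval y G = eval y F * (R - ∑ i, y i ^ 2) := fun y => by simp [G]
  have hG : G.totalDegree ≤ d + 2 := by
    refine (totalDegree_mul _ _).trans (add_le_add hF ((totalDegree_sub _ _).trans ?_))
    refine max_le (by simp) (totalDegree_finsetSum_le fun i _ => ?_)
    simp
  let U : Set (Fin n → ℝ) := {y | eval y F ≠ 0 ∧ ∑ i, y i ^ 2 < R}
  have hU : IsOpen U := (isOpen_ne_fun F.continuous_eval continuous_const).inter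
    (isOpen_lt (f := fun y : Fin n → ℝ => ∑ i, y i ^ 2) (by fun_prop) continuous_const)
  have hb : Bornology.IsBounded U := by
    refine (Metric.isBounded_closedBall (x := (0 : Fin n → ℝ)) (r := |R| + 1)).subset fun y hy => ?_
    rw [mem_closedBall_zero_iff, pi_norm_le_iff_of_nonneg (by positivity)]
    intro i
    have h1 : y i ^ 2 ≤ ∑ i, y i ^ 2 :=
      single_le_sum (f := fun i => y i ^ 2) (fun _ _ => sq_nonneg _) (mem_univ i)
    rw [Real.norm_eq_abs, abs_le]
    constructor <;> nlinarith [hy.2, le_abs_self R, sq_nonneg (y i + 1), sq_nonneg (y i - 1)]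
  have hGU : ∀ y ∈ closure U, eval y G ≠ 0 ↔ y ∈ U := fun y hy => by
    have h1 : ∑ i, y i ^ 2 ≤ R := closure_minimal (fun z hz => hz.2.le)
      (isClosed_le (f := fun y : Fin n → ℝ => ∑ i, y i ^ 2) (by fun_prop) continuous_const) hy
    rw [hGe, mul_ne_zero_iff, sub_ne_zero]
    exact and_congr_right fun _ => ⟨fun h => lt_of_le_of_ne h1 h.symm, fun h => h.ne'⟩
  let ℓ : ℝ → MvPolynomial (Fin n) ℝ := fun τ => ∑ i : Fin n, C (τ ^ (i : ℕ)) * X i
  have hℓ : ∀ τ, (ℓ τ).totalDegree ≤ 1 := fun τ => totalDegree_finsetSum_le fun i _ =>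
    (totalDegree_mul _ _).trans (by rw [totalDegree_C, totalDegree_X])
  choose q hq hq' using fun τ => exists_rel G (ℓ τ) hG (hℓ τ)
  obtain ⟨S, hS⟩ := Infinite.exists_subset_card_eq ℝ (T.card * T.card * n + 1)
  obtain ⟨v, hv⟩ : ∃ v, eval v (∏ τ ∈ S, q τ) ≠ 0 := by
    by_contra h
    push Not at h
    exact prod_ne_zero_iff.2 (fun τ _ => hq τ) (MvPolynomial.funext (by simpa using h))
  choose! z hz hz' using fun x (hx : x ∈ T) => exists_crit G hU hb hGU v (x := x) ⟨hT x hx, hR x hx⟩
  have hzinj : Set.InjOn z T := fun x hx x' hx' h => hinj hx hx' (by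
    have key : ∀ x ∈ T, cell F x = cell F (z x) := fun x hx =>
      connectedComponentIn_eq (connectedComponentIn_mono x (fun y hy => hy.1) (hz x hx))
    rw [key x hx, key x' hx', h])
  obtain ⟨τ, hτ, hsep⟩ := exists_sep (T.image z) S (by rw [card_image_of_injOn hzinj]; omega)
  obtain ⟨r, hr, hr1, hr2⟩ := hq' τ v (by rw [map_prod] at hv; exact prod_ne_zero_iff.1 hv τ hτ)
  refine le_trans (card_le_card_of_injOn (t := r.roots.toFinset) (fun x => eval (z x) (ℓ τ))
    (fun x hx => ?_) fun x hx x' hx' h => hzinj hx hx' (hsep ?_ ?_ ?_))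
    ((Multiset.toFinset_card_le _).trans ((Polynomial.card_roots' _).trans hr1))
  · have h1 := connectedComponentIn_subset U x (hz x hx)
    simpa [hr] using hr2 (z x) ((hGU _ (subset_closure h1)).2 h1) (hz' x hx)
  · exact mem_coe.2 (mem_image_of_mem z hx)
  · exact mem_coe.2 (mem_image_of_mem z hx')
  · simpa [ℓ] using h

end Pool.Agent.Lib.MP_fb430f_co
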