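import Pool.Agent.Lib.MP_fb430f_co.KyFan

set_option autoImplicit false

namespace Pool.Agent.Lib.MP_fb430f_co

open Finset Pool.Agent.Lib.helper63.Chains Module

variable {W : Type*} [AddCommGroup W] [Module ℝ W]

/-- Finite sets of nonzero vectors of `C` lying weakly on one side of each form of `Φ`. -/
def Conf (Φ : List (W →ₗ[ℝ] ℝ)) (C : Set W) (s : Finset {f : W // f ≠ 0}) : Prop :=
  (∀ f ∈ s, f.1 ∈ C) ∧ ∀ h ∈ Φ, (∀ f ∈ s, 0 ≤ h f.1) ∨ (∀ f ∈ s, h f.1 ≤ 0)

open Classical in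
lemma conf_down (Φ : List (W →ₗ[ℝ] ℝ)) (C : Set W) : Down (Conf Φ C) := by
  rintro s v ⟨h1, h2⟩
  refine ⟨fun f hf => h1 f (mem_of_mem_erase hf), fun h hh => ?_⟩
  rcases h2 h hh with h3 | h3
  · exact Or.inl fun f hf => h3 f (mem_of_mem_erase hf)
  · exact Or.inr fun f hf => h3 f (mem_of_mem_erase hf)

open Classical in
lemma conf_step {Φ : List (W →ₗ[ℝ] ℝ)} {C : Set W} {h : W →ₗ[ℝ] ℝ} {r : ℕ}
    (a1 : Acyc (Conf Φ (C ∩ {x | 0 ≤ h x})) r) (a2 : Acyc (Conf Φ (C ∩ {x | h x ≤ 0})) r)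
    (a0 : Acyc (Conf Φ (C ∩ {x | h x = 0})) (r - 1)) : Acyc (Conf (h :: Φ) C) r := by
  refine Acyc.union (fun s => ?_) (fun s => ?_) (conf_down _ _) (conf_down _ _) a1 a2 a0
  · simp only [Conf, List.forall_mem_cons, Set.mem_inter_iff, Set.mem_ofPred_eq]
    constructor
    · rintro ⟨h1, h2 | h2, h3⟩
      · exact Or.inl ⟨fun f hf => ⟨h1 f hf, h2 f hf⟩, h3⟩
      · exact Or.inr ⟨fun f hf => ⟨h1 f hf, h2 f hf⟩, h3⟩
    · rintro (⟨h1, h3⟩ | ⟨h1, h3⟩)
      · exact ⟨fun f hf => (h1 f hf).1, Or.inl fun f hf => (h1 f hf).2, h3⟩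
      · exact ⟨fun f hf => (h1 f hf).1, Or.inr fun f hf => (h1 f hf).2, h3⟩
  · simp only [Conf, Set.mem_inter_iff, Set.mem_ofPred_eq]
    constructor
    · rintro ⟨h1, h3⟩
      exact ⟨⟨fun f hf => ⟨(h1 f hf).1, (h1 f hf).2.ge⟩, h3⟩,
        ⟨fun f hf => ⟨(h1 f hf).1, (h1 f hf).2.le⟩, h3⟩⟩
    · rintro ⟨⟨h1, h3⟩, h2, -⟩
      exact ⟨fun f hf => ⟨(h1 f hf).1, le_antisymm (h2 f hf).2 (h1 f hf).2⟩, h3⟩

open Classical in
lemma conf_nil {C : Set W} {e : W} (he : e ∈ C) (he0 : e ≠ 0) (r : ℕ) : Acyc (Conf [] C) r := by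
  refine Acyc.of_cone ⟨e, he0⟩ (fun s hs => ⟨fun f hf => ?_, by simp⟩) r
  rcases mem_insert.1 hf with rfl | hf
  · exact he
  · exact hs.1 f hf

open Classical in
lemma conf_cone (Φ : List (W →ₗ[ℝ] ℝ)) : ∀ (C : Set W), (∀ x ∈ C, ∀ y ∈ C, x + y ∈ C) →
    (∀ t : ℝ, 0 ≤ t → ∀ x ∈ C, t • x ∈ C) → (∃ e ∈ C, -e ∉ C) → ∀ r, Acyc (Conf Φ C) r := by
  induction Φ with
  | nil =>
    rintro C - - ⟨e, he, he'⟩ r
    exact conf_nil he (fun h => he' (by rw [h, neg_zero, ← h]; exact he)) r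
  | cons h Φ ih =>
    rintro C hadd hsm ⟨e, he, he'⟩ r
    by_cases h1 : (∀ x ∈ C, 0 ≤ h x) ∨ (∀ x ∈ C, h x ≤ 0)
    · refine (ih C hadd hsm ⟨e, he, he'⟩ r).congr fun s => ?_
      simp only [Conf, List.forall_mem_cons]
      refine ⟨fun hs => ⟨hs.1, ?_, hs.2⟩, fun hs => ⟨hs.1, hs.2.2⟩⟩
      exact h1.imp (fun h2 f hf => h2 _ (hs.1 f hf)) fun h2 f hf => h2 _ (hs.1 f hf)
    · push Not at h1
      obtain ⟨⟨x, hx, hx'⟩, y, hy, hy'⟩ := h1
      have key : ∃ e' ∈ C, h e' = 0 ∧ -e' ∉ C := by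
        have aux : ∀ z ∈ C, ∀ t : ℝ, 0 ≤ t → h e + t * h z = 0 → ∃ e' ∈ C, h e' = 0 ∧ -e' ∉ C := by
          intro z hz t ht h0
          refine ⟨e + t • z, hadd _ he _ (hsm t ht z hz), by simpa using h0, fun hn => he' ?_⟩
          simpa using hadd _ hn _ (hsm t ht z hz)
        rcases le_total 0 (h e) with h2 | h2
        · exact aux x hx (h e / (-h x)) (div_nonneg h2 (by linarith)) (by
            have := hx'.ne
            field_simp; ring)
        · exact aux y hy (-h e / h y) (div_nonneg (by linarith) hy'.le) (by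
            have := hy'.ne'
            field_simp; ring)
      obtain ⟨e', h1, h2, h3⟩ := key
      refine conf_step (ih (C ∩ {x | 0 ≤ h x}) ?_ ?_ ⟨e', ⟨h1, h2.ge⟩, fun h => h3 h.1⟩ _)
        (ih (C ∩ {x | h x ≤ 0}) ?_ ?_ ⟨e', ⟨h1, h2.le⟩, fun h => h3 h.1⟩ _)
        (ih (C ∩ {x | h x = 0}) ?_ ?_ ⟨e', ⟨h1, h2⟩, fun h => h3 h.1⟩ _)
      · exact fun a ha b hb => ⟨hadd a ha.1 b hb.1, by simpa using add_nonneg ha.2 hb.2⟩
      · exact fun t ht a ha => ⟨hsm t ht a ha.1, by simpa using mul_nonneg ht ha.2⟩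
      · exact fun a ha b hb => ⟨hadd a ha.1 b hb.1, by simpa using add_nonpos ha.2 hb.2⟩
      · exact fun t ht a ha =>
          ⟨hsm t ht a ha.1, by simpa using mul_nonpos_of_nonneg_of_nonpos ht ha.2⟩
      · exact fun a ha b hb => ⟨hadd a ha.1 b hb.1, by
          have h4 : h a = 0 := ha.2
          have h5 : h b = 0 := hb.2
          simp [h4, h5]⟩
      · exact fun t ht a ha => ⟨hsm t ht a ha.1, by
          have h4 : h a = 0 := ha.2
          simp [h4]⟩

open Classical in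
lemma conf_sub [FiniteDimensional ℝ W] (Φ : List (W →ₗ[ℝ] ℝ)) :
    ∀ U : Submodule ℝ W, Acyc (Conf Φ (U : Set W)) (finrank ℝ U) := by
  induction Φ with
  | nil =>
    intro U
    by_cases hU : U = ⊥
    · subst hU
      intro k hk
      simp at hk
    · obtain ⟨e, he, he0⟩ := Submodule.exists_mem_ne_zero_of_ne_bot hU
      exact conf_nil he he0 _
  | cons h Φ ih =>
    intro U
    by_cases h1 : ∀ x ∈ U, h x = 0
    · refine (ih U).congr fun s => ?_
      simp only [Conf, List.forall_mem_cons]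
      exact ⟨fun hs => ⟨hs.1, Or.inl fun f hf => (h1 _ (hs.1 f hf)).ge, hs.2⟩,
        fun hs => ⟨hs.1, hs.2.2⟩⟩
    · push Not at h1
      obtain ⟨x, hx, hx'⟩ := h1
      obtain ⟨e, he, he'⟩ : ∃ e ∈ U, 0 < h e := by
        rcases lt_or_gt_of_ne hx' with h2 | h2
        · exact ⟨-x, U.neg_mem hx, by simpa using h2⟩
        · exact ⟨x, hx, h2⟩
      refine conf_step
        (conf_cone Φ ((U : Set W) ∩ {x | 0 ≤ h x}) ?_ ?_ ⟨e, ⟨he, he'.le⟩, fun h => ?_⟩ _)
        (conf_cone Φ ((U : Set W) ∩ {x | h x ≤ 0}) ?_ ?_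
          ⟨-e, ⟨U.neg_mem he, by simpa using he'.le⟩, fun h => ?_⟩ _) ?_
      · exact fun a ha b hb => ⟨U.add_mem ha.1 hb.1, by simpa using add_nonneg ha.2 hb.2⟩
      · exact fun t ht a ha => ⟨U.smul_mem t ha.1, by simpa using mul_nonneg ht ha.2⟩
      · have := h.2
        simp only [Set.mem_ofPred_eq, map_neg] at this
        linarith
      · exact fun a ha b hb => ⟨U.add_mem ha.1 hb.1, by simpa using add_nonpos ha.2 hb.2⟩
      · exact fun t ht a ha =>
          ⟨U.smul_mem t ha.1, by simpa using mul_nonpos_of_nonneg_of_nonpos ht ha.2⟩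
      · have := h.2
        simp only [Set.mem_ofPred_eq, neg_neg] at this
        linarith
      · refine (ih (U ⊓ LinearMap.ker h)).mono ?_
        have e1 := Submodule.finrank_sup_add_finrank_inf_eq U (LinearMap.ker h)
        have e2 := LinearMap.finrank_range_add_finrank_ker h
        have e3 := Submodule.finrank_le (U ⊔ LinearMap.ker h)
        have e4 := Submodule.finrank_le (LinearMap.range h)
        rw [finrank_self] at e4
        omega

universe u in
theorem tucker {V : Type u} [DecidableEq V] {κ : Type*} [Fintype κ] (K : Finset V → Prop) (r : ℕ)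
    (c0 : V → κ) (sgn : V → Bool) (a : V → V) (ha : ∀ v, a (a v) = v)
    (hc0 : ∀ v, c0 (a v) = c0 v) (hsgn : ∀ v, sgn (a v) = !sgn v)
    (hK : ∀ s, K s → K (s.image a)) (h0 : K ∅) (hac : Acyc K r) (hr : Fintype.card κ < r) :
    ∃ s, K s ∧ ∃ v ∈ s, ∃ w ∈ s, c0 v = c0 w ∧ sgn v ≠ sgn w := by
  classical
  by_contra hn
  push Not at hn
  obtain ⟨κ', _, d, hd1, hd2⟩ : ∃ (κ' : Type u) (_ : LinearOrder κ') (d : V → κ'),
      (∀ v, d (a v) = d v) ∧ ∀ v w, d v = d w → w = v ∨ w = a v :=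
    ⟨Set V, linearOrderOfSTO WellOrderingRel, fun v => {v, a v},
      fun v => by simp [ha, Set.pair_comm], fun v w e => by
        have : w ∈ ({v, a v} : Set V) := by
          have e' : ({v, a v} : Set V) = {w, a w} := e
          rw [e']; simp
        simpa using this⟩
  let _ : LinearOrder κ := linearOrderOfSTO WellOrderingRel
  let cls : V → Lex (κ × κ') := fun f => toLex (c0 f, d f)
  have hinj : ∀ s, K s → Set.InjOn cls s := fun s hs v hv w hw e => by
    rcases hd2 v w (congrArg (fun x => (ofLex x).2) e) with e3 | e3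
    · exact e3.symm
    · have := hn s hs v hv w hw (congrArg (fun x => (ofLex x).1) e)
      rw [e3, hsgn] at this
      simp at this
  obtain ⟨s, hs, hcard, halt⟩ := exists_alt K r cls sgn a ha
    (fun v => by simp only [cls, hc0, hd1]) hsgn hK h0 hinj hac
  obtain ⟨v, hv, w, hw, hvw, e⟩ := exists_ne_map_eq_of_card_lt_of_maps_to
    (t := (univ : Finset κ)) (s := s) (by rw [hcard]; exact hr) (f := c0) (fun _ _ => mem_univ _)
  have main : ∀ v ∈ s, ∀ w ∈ s, c0 v = c0 w → cls v < cls w → False := by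
    intro v hv w hw e hlt
    obtain ⟨u, hu, hmin⟩ := exists_min_image (s.filter fun x => cls v < cls x) cls
      ⟨w, mem_filter.2 ⟨hw, hlt⟩⟩
    obtain ⟨hus, hvu⟩ := mem_filter.1 hu
    have h1 : c0 v = c0 u := by
      have h2 : c0 v ≤ c0 u := Prod.Lex.monotone_fst _ _ hvu.le
      have h3 : c0 u ≤ c0 w := Prod.Lex.monotone_fst _ _ (hmin w (mem_filter.2 ⟨hw, hlt⟩))
      exact le_antisymm h2 (e ▸ h3)
    have h2 : (s.filter fun x => cls x < cls u) = insert v (s.filter fun x => cls x < cls v) := by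
      ext x
      simp only [mem_filter, mem_insert]
      constructor
      · rintro ⟨hx, hxu⟩
        rcases lt_trichotomy (cls x) (cls v) with h | h | h
        · exact Or.inr ⟨hx, h⟩
        · exact Or.inl (hinj s hs hx hv h)
        · exact absurd (hmin x (mem_filter.2 ⟨hx, h⟩)) (not_le.2 hxu)
      · rintro (rfl | ⟨hx, h⟩)
        · exact ⟨hv, hvu⟩
        · exact ⟨hx, h.trans hvu⟩
    have h3 := hn s hs v hv u hus h1
    rw [halt v hv, halt u hus, h2, card_insert_of_notMem (by simp)] at h3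
    simp [Nat.odd_add_one, ← Nat.not_even_iff_odd] at h3
  rcases lt_or_gt_of_ne (fun e' => hvw (hinj s hs hv hw e')) with h | h
  · exact main v hv w hw e h
  · exact main w hw v hv e.symm h

/-- The discrete ham sandwich theorem. -/
theorem ham [FiniteDimensional ℝ W] {ι κ : Type*} [Fintype κ] (T : κ → Finset ι)
    (φ : ι → W →ₗ[ℝ] ℝ) (hM : Fintype.card κ < finrank ℝ W) :
    ∃ f : W, f ≠ 0 ∧ ∀ k, 2 * ((T k).filter fun i => 0 < φ i f).card ≤ (T k).card ∧
      2 * ((T k).filter fun i => φ i f < 0).card ≤ (T k).card := by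
  classical
  by_contra hn
  let pos : W → κ → Prop := fun f k => (T k).card < 2 * ((T k).filter fun i => 0 < φ i f).card
  have hbad : ∀ f : {f : W // f ≠ 0}, ∃ k, pos f.1 k ∨ pos (-f.1) k := by
    intro f
    by_contra h
    push Not at h
    refine hn ⟨f.1, f.2, fun k => ⟨not_lt.1 (h k).1, ?_⟩⟩
    simpa [pos] using (h k).2
  have clash : ∀ (f g : W) (k : κ), pos f k → pos (-g) k → ∃ i ∈ T k, 0 < φ i f ∧ φ i g < 0 := by
    intro f g k h1 h2
    by_contra h
    push Not at h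
    have h3 : Disjoint ((T k).filter fun i => 0 < φ i f) ((T k).filter fun i => 0 < φ i (-g)) := by
      rw [disjoint_filter]
      intro i hi h4 h5
      have := h i hi h4
      rw [map_neg] at h5
      linarith
    have h4 := card_le_card (union_subset (filter_subset (fun i => 0 < φ i f) (T k))
      (filter_subset (fun i => 0 < φ i (-g)) (T k)))
    rw [card_union_of_disjoint h3] at h4
    simp only [pos] at h1 h2
    omega
  let a : {f : W // f ≠ 0} → {f : W // f ≠ 0} := fun f => ⟨-f.1, neg_ne_zero.2 f.2⟩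
  have hne : Nonempty κ := by
    have : Nontrivial W := Module.nontrivial_of_finrank_pos (R := ℝ) (by omega)
    obtain ⟨f, hf⟩ := exists_ne (0 : W)
    exact ⟨(hbad ⟨f, hf⟩).choose⟩
  let c0 : {f : W // f ≠ 0} → κ := fun f => Classical.epsilon fun k => pos f.1 k ∨ pos (-f.1) k
  have hc0 : ∀ f, pos f.1 (c0 f) ∨ pos (-f.1) (c0 f) := fun f => Classical.epsilon_spec (hbad f)
  have hc0a : ∀ f, c0 (a f) = c0 f := fun f => by
    simp only [c0, a, neg_neg, or_comm]
  let L : List (W →ₗ[ℝ] ℝ) := ((univ.biUnion T).image φ).toList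
  have opp : ∀ s, Conf L (⊤ : Submodule ℝ W) s → ∀ v ∈ s, ∀ w ∈ s, c0 v = c0 w →
      pos v.1 (c0 v) → pos w.1 (c0 w) := by
    intro s hs v hv w hw e h1
    refine (hc0 w).resolve_right fun h2 => ?_
    obtain ⟨i, hi, h3, h4⟩ := clash _ _ _ (e ▸ h1) h2
    rcases hs.2 (φ i) (by
      simp only [L, mem_toList, mem_image, mem_biUnion]
      exact ⟨i, ⟨_, mem_univ _, hi⟩, rfl⟩) with h5 | h5
    · linarith [h5 w hw]
    · linarith [h5 v hv]
  have flip : ∀ f, pos (a f).1 (c0 (a f)) ↔ ¬ pos f.1 (c0 f) := fun f => by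
    rw [hc0a]
    refine ⟨fun h1 h2 => ?_, fun h => (hc0 f).resolve_left h⟩
    obtain ⟨i, -, h3, h4⟩ := clash _ _ _ h2 h1
    linarith
  obtain ⟨s, hs, v, hv, w, hw, e, hvw⟩ := tucker (Conf L (⊤ : Submodule ℝ W)) _ c0
    (fun f => decide (pos f.1 (c0 f))) a (fun v => by simp [a]) hc0a
    (fun v => by simp [flip])
    (fun s hs => ⟨fun _ _ => trivial, fun h hh => (hs.2 h hh).symm.imp
      (fun h1 => forall_mem_image.2 fun f hf => by simpa [a] using h1 f hf)
      fun h1 => forall_mem_image.2 fun f hf => by simpa [a] using h1 f hf⟩)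
    ⟨by simp, by simp⟩ (conf_sub L ⊤) (by rw [finrank_top]; exact hM)
  exact hvw (decide_eq_decide.2 ⟨opp s hs v hv w hw e, opp s hs w hw v hv e.symm⟩)

end Pool.Agent.Lib.MP_fb430f_co
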