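import Pool.Agent.Lib.MP_fb430f_co.Rich
import Pool.Agent.Lib.MP_fb430f_co.Circle

set_option autoImplicit false

namespace Pool.Agent.Lib.MP_fb430f_co

open Finset Pointwise

/-- Points of `P` whose translate by `-v` also lies in `P`. -/
def Av (P : Finset (Fin 4 → ℤ)) (v : Fin 4 → ℤ) : Finset (Fin 4 → ℤ) :=
  P.filter fun a => a - v ∈ P

variable {P : Finset (Fin 4 → ℤ)} {K n : ℕ}

lemma Av_sub (hP : ∀ a ∈ P, a ⬝ᵥ a = n ^ 2) (v : Fin 4 → ℤ) :
    Av P v ⊆ P.filter fun a => On v a := by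
  intro a ha
  obtain ⟨h1, h2⟩ := mem_filter.1 ha
  refine mem_filter.2 ⟨h1, ?_⟩
  have h3 := hP a h1
  have h4 := hP _ h2
  simp only [On, dotProduct, Fin.sum_univ_four, Pi.sub_apply] at *
  linear_combination h3 - h4

lemma Av_le (v : Fin 4 → ℤ) : (Av P v).card ≤ P.card := card_filter_le _ _

lemma energy_le : P.addEnergy P ≤ ∑ v ∈ P - P, (Av P v).card ^ 2 := by
  rw [addEnergy, card_eq_sum_card_fiberwise (f := fun x => x.1.1 - x.1.2) (t := P - P)]
  · refine sum_le_sum fun v _ => ?_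
    rw [sq, ← card_product]
    refine card_le_card_of_injOn (fun x => (x.1.1, x.2.2)) (fun x hx => ?_) fun x hx y hy h => ?_
    · simp only [coe_filter, mem_filter, mem_product, Set.mem_ofPred_eq, Av, coe_product,
        Set.mem_prod] at hx ⊢
      obtain ⟨⟨⟨⟨h1, h2⟩, h3, h4⟩, h5⟩, rfl⟩ := hx
      refine ⟨⟨h1, by simpa using h2⟩, h4, ?_⟩
      convert h3 using 1
      linear_combination -h5
    · simp only [coe_filter, mem_filter, Set.mem_ofPred_eq, Prod.mk.injEq] at hx hy h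
      refine Prod.ext (Prod.ext h.1 ?_) (Prod.ext ?_ h.2)
      · linear_combination h.1 - hx.2 + hy.2
      · linear_combination hx.1.2 - hy.1.2 + h.2 - hx.2 + hy.2
  · intro x hx
    simp only [coe_filter, mem_product, Set.mem_ofPred_eq] at hx
    exact sub_mem_sub hx.1.1.1 hx.1.1.2

lemma sq_le_pairs {α β : Type*} [DecidableEq β] (s : Finset α) (f : α → β) :
    s.card ^ 2 ≤ (s.image f).card * ((s ×ˢ s).filter fun x => f x.1 = f x.2).card := by
  rw [card_eq_sum_card_image f s]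
  refine sq_sum_le_card_mul_sum_sq.trans (Nat.mul_le_mul_left _ (le_of_eq ?_))
  rw [card_eq_sum_card_fiberwise (f := fun x => f x.1) (t := s.image f)]
  · refine sum_congr rfl fun U _ => ?_
    rw [sq, ← card_product]
    congr 1
    ext x
    simp only [mem_product, mem_filter]
    grind
  · intro x hx
    simp only [coe_filter, mem_product, Set.mem_ofPred_eq] at hx
    exact mem_image_of_mem _ hx.1.1

lemma sum_card_comm {α β : Type*} (s : Finset α) (t : Finset β) (R : α → β → Prop)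
    [∀ a, DecidablePred (R a)] [∀ b, DecidablePred fun a => R a b] :
    ∑ a ∈ s, (t.filter fun b => R a b).card = ∑ b ∈ t, (s.filter fun a => R a b).card := by
  simp only [card_filter]
  convert sum_comm

lemma tail (hP : ∀ a ∈ P, a ⬝ᵥ a = n ^ 2) (hK : FewCirc P K) {k : ℕ} (hk : 2 * K ≤ k)
    (hk0 : 0 < k) (hk1 : K ^ 3 * P.card ^ 2 ≤ 2 ^ 10 * k ^ 5) (W : Finset (Fin 4 → ℤ))
    (hW : ∀ w ∈ W, w ≠ 0 ∧ k ≤ (Av P w).card) :
    ∑ w ∈ W, (Av P w).card ^ 2 ≤ 10 ^ 56 * P.card ^ 2 := by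
  rcases W.eq_empty_or_nonempty with rfl | ⟨w0, hw0⟩
  · simp
  have hkm : k ≤ P.card := (hW w0 hw0).2.trans (Av_le _)
  have h1 : ∀ w ∈ W, (Av P w).card ^ 2 ≤
      k ^ 2 + ∑ j ∈ Ioc k P.card, if j ≤ (Av P w).card then 2 * j else 0 := by
    intro w hw
    have h2 := (hW w hw).2
    have h3 : (Ioc k P.card).filter (fun j => j ≤ (Av P w).card) = Ioc k (Av P w).card := by
      ext j
      have := Av_le (P := P) w
      simp only [mem_filter, mem_Ioc]
      omega
    rw [← sum_filter, h3]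
    generalize (Av P w).card = r at h2
    induction r, h2 using Nat.le_induction with
    | base => simp
    | succ r hr ih => rw [sum_Ioc_succ_top hr]; nlinarith
  have h2 : ∀ j, k ≤ j → (W.filter fun w => j ≤ (Av P w).card).card * j ^ 7 ≤
      10 ^ 52 * (P.card * j ^ 6 + K ^ 3 * P.card ^ 4) := fun j hj =>
    rich hK (hk.trans hj) (hk0.trans_le hj) _ fun w hw =>
      ⟨(hW w (mem_filter.1 hw).1).1, (mem_filter.1 hw).2.trans (card_le_card (Av_sub hP w))⟩
  have h3 := h2 k le_rfl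
  rw [filter_true_of_mem fun w hw => (hW w hw).2] at h3
  refine (sum_le_sum h1).trans ?_
  rw [sum_add_distrib, sum_const, sum_comm, smul_eq_mul]
  simp only [← sum_filter, sum_const, smul_eq_mul]
  generalize P.card = m at *
  have h4 : W.card * k ^ 2 ≤ 1025 * 10 ^ 52 * m ^ 2 := by
    refine Nat.le_of_mul_le_mul_right (c := k ^ 5) ?_ (by positivity)
    have b1 := Nat.mul_le_mul_left (m ^ 2) hk1
    have b2 := Nat.mul_le_mul_left (m * k ^ 5) hkm
    nlinarith
  have h5 : ∀ j ∈ Ioc k m, (((W.filter fun w => j ≤ (Av P w).card).card * (2 * j) : ℕ) : ℝ) ≤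
      2 * 10 ^ 52 * m + 2 ^ 11 * 10 ^ 52 * m ^ 2 * k * ((j : ℝ) ^ 2)⁻¹ := by
    intro j hj
    have h6 := (mem_Ioc.1 hj).1
    have h7 := h2 j h6.le
    generalize (W.filter fun w => j ≤ (Av P w).card).card = N at *
    have h8 : N * (2 * j) * j ^ 2 ≤ 2 * 10 ^ 52 * m * j ^ 2 + 2 ^ 11 * 10 ^ 52 * m ^ 2 * k := by
      refine Nat.le_of_mul_le_mul_right (c := j ^ 4) ?_ (Nat.pow_pos (by omega))
      have b1 := Nat.mul_le_mul_left (m ^ 2) hk1
      have b2 := Nat.mul_le_mul_left (m ^ 2 * k) (Nat.pow_le_pow_left h6.le 4)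
      nlinarith
    have h9 : (0 : ℝ) < (j : ℝ) ^ 2 := by have : 0 < j := by omega
                                          positivity
    rw [← div_eq_mul_inv, add_div' _ _ _ h9.ne', le_div_iff₀ h9]
    exact_mod_cast h8
  have h6 := sum_le_sum h5
  rw [← Nat.cast_sum, sum_add_distrib, sum_const, ← mul_sum, Nat.card_Ioc, nsmul_eq_mul] at h6
  have h7 := sum_Ioc_inv_sq_le_sub (α := ℝ) hk0.ne' hkm
  have hk' : (0 : ℝ) < k := by exact_mod_cast hk0
  have h8 : (k : ℝ) * ∑ i ∈ Ioc k m, ((i : ℝ) ^ 2)⁻¹ ≤ 1 := by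
    rw [← mul_inv_cancel₀ hk'.ne']
    exact mul_le_mul_of_nonneg_left (h7.trans (sub_le_self _ (by positivity))) hk'.le
  have h9 : ((m - k : ℕ) : ℝ) ≤ m := by exact_mod_cast Nat.sub_le _ _
  have h10 : ((∑ j ∈ Ioc k m, (W.filter fun w => j ≤ (Av P w).card).card * (2 * j) : ℕ) : ℝ) ≤
      2050 * 10 ^ 52 * m ^ 2 := by
    have b1 := mul_le_mul_of_nonneg_left h8 (by positivity : (0 : ℝ) ≤ 2 ^ 11 * 10 ^ 52 * m ^ 2)
    have b2 := mul_le_mul_of_nonneg_left h9 (by positivity : (0 : ℝ) ≤ 2 * 10 ^ 52 * m)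
    nlinarith
  have h11 : ∑ j ∈ Ioc k m, (W.filter fun w => j ≤ (Av P w).card).card * (2 * j) ≤
      2050 * 10 ^ 52 * m ^ 2 := by exact_mod_cast h10
  omega

lemma pairs_le (S : Finset ((Fin 4 → ℤ) × (Fin 4 → ℤ))) (hS : S ⊆ P ×ˢ P) (k : ℕ)
    (V : Finset (Fin 4 → ℤ)) :
    ∑ v ∈ V, (S.filter fun x => x.1 ∈ Av P v ∧ x.2 ∈ Av P v).card ≤ S.card * k + (P.card ^ 2 +
      ∑ w ∈ (P - P).filter (fun w => w ≠ 0 ∧ k ≤ (Av P w).card), (Av P w).card ^ 2) := by
  have h1 : ∑ v ∈ V, (S.filter fun x => x.1 ∈ Av P v ∧ x.2 ∈ Av P v).card ≤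
      ∑ x ∈ S, (Av P (x.1 - x.2)).card := by
    rw [sum_card_comm]
    refine sum_le_sum fun x _ => ?_
    refine card_le_card_of_injOn (fun v => x.1 - v) (fun v hv => ?_) fun v _ v' _ h => by
      simpa using h
    simp only [coe_filter, mem_filter, Set.mem_ofPred_eq, Av] at hv ⊢
    refine ⟨hv.2.1.2, ?_⟩
    convert hv.2.2.2 using 1
    ring
  set W := (P - P).filter fun w => w ≠ 0 ∧ k ≤ (Av P w).card with hW
  refine h1.trans ?_
  rw [← sum_filter_add_sum_filter_not S (fun x => x.1 - x.2 ∈ insert 0 W), add_comm]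
  refine add_le_add ((sum_le_card_nsmul _ _ k fun x hx => ?_).trans
    (Nat.mul_le_mul_right _ (card_filter_le _ _))) ?_
  · obtain ⟨h2, h3⟩ := mem_filter.1 hx
    have h4 := mem_product.1 (hS h2)
    simp only [hW, mem_insert, mem_filter, not_or, not_and, not_le] at h3
    exact (h3.2 (sub_mem_sub h4.1 h4.2) h3.1).le
  · rw [← sum_fiberwise_of_maps_to (s := S.filter fun x => x.1 - x.2 ∈ insert 0 W)
      (g := fun x => x.1 - x.2) fun x hx => (mem_filter.1 hx).2]
    refine le_trans (sum_le_sum (g := fun w => (Av P w).card ^ 2) fun w _ => ?_) ?_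
    · rw [sum_congr rfl (g := fun _ => (Av P w).card) fun x hx => by rw [(mem_filter.1 hx).2],
        sum_const, smul_eq_mul, sq]
      refine Nat.mul_le_mul_right _ (card_le_card_of_injOn Prod.fst (fun x hx => ?_)
        fun x hx y hy h => ?_)
      · simp only [coe_filter, mem_filter, Set.mem_ofPred_eq, Av] at hx ⊢
        have h4 := mem_product.1 (hS hx.1.1)
        exact ⟨h4.1, by simpa [← hx.2] using h4.2⟩
      · simp only [coe_filter, mem_filter, Set.mem_ofPred_eq] at hx hy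
        exact Prod.ext h (by linear_combination h - hx.2 + hy.2)
    · rw [sum_insert (by simp [hW])]
      exact add_le_add (Nat.pow_le_pow_left (Av_le _) 2) le_rfl

theorem energy_nat (hn : 1 ≤ n) (hP : ∀ a ∈ P, a ⬝ᵥ a = n ^ 2) (hK : FewCirc P K) (hK1 : 1 ≤ K)
    (j : ℕ) (hj : P.card ^ 2 ≤ 2 ^ 15 * (2 ^ j) ^ 15) (hj' : (2 ^ j) ^ 4 ≤ P.card) :
    P.addEnergy P ≤ 10 ^ 67 * K ^ 2 * P.card ^ 2 * (2 ^ j) ^ 2 := by
  classical
  obtain ⟨P', lab, h1, h2, h3, h4, h5⟩ := groups3 (P - P) P n hn hP j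
  have hD : 1 ≤ 2 ^ j := Nat.one_le_two_pow
  generalize 2 ^ j = D at *
  let fib : Set (Fin 3 → ℝ) → Finset (Fin 4 → ℤ) := fun U => P'.filter fun i => lab i = U
  let Bad := P.filter fun a => a ∉ P' ∨ (fib (lab a)).card ≤ K
  let Loc := (P' ×ˢ P').filter fun x => lab x.1 = lab x.2
  let Ab : (Fin 4 → ℤ) → Finset (Fin 4 → ℤ) := fun v =>
    P'.filter fun a => K < (fib (lab a)).card ∧ ∀ a' ∈ P', lab a' = lab a → On v a'
  let Cr : (Fin 4 → ℤ) → Finset (Fin 4 → ℤ) := fun v =>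
    (Av P v).filter fun a => a ∈ P' ∧ ∃ a' ∈ P', lab a' = lab a ∧ ¬ On v a'
  have hBad : Bad.card ≤ 2 * 10 ^ 9 * K * D ^ 3 := by
    have b1 : Bad ⊆ P \ P' ∪ P'.filter fun a => (fib (lab a)).card ≤ K := fun a ha => by
      simp only [Bad, mem_filter, mem_union, mem_sdiff] at ha ⊢
      tauto
    have b2 := card_le_mul_card_image (f := lab) (P'.filter fun a => (fib (lab a)).card ≤ K) K
      (forall_mem_image.2 fun a ha => le_trans (card_le_card (filter_subset_filter _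
        (filter_subset _ _))) (mem_filter.1 ha).2)
    have b3 := (card_le_card (image_subset_image (f := lab)
      (filter_subset (fun a => (fib (lab a)).card ≤ K) P'))).trans h3
    have b4 := (card_le_card b1).trans (card_union_le _ _)
    rw [card_sdiff_of_subset h1] at b4
    have b5 := Nat.mul_le_mul_left K b3
    have b6 := Nat.mul_le_mul_right (10 ^ 9 * D ^ 3) hK1
    have b7 : P.card - P'.card ≤ 10 ^ 9 * D ^ 3 := by omega
    nlinarith
  have hLoc : D ^ 3 * Loc.card ≤ P.card ^ 2 := by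
    simp only [Loc, card_filter, sum_product]
    rw [mul_sum, sq]
    refine (sum_le_card_nsmul _ _ P.card fun a _ => ?_).trans
      (Nat.mul_le_mul_right _ (card_le_card h1))
    simp only [eq_comm (a := lab a), ← card_filter]
    exact h4 _
  have hsplit : ∀ v ∈ (P - P).erase 0, (Av P v).card ^ 2 ≤
      3 * (Bad.card * (Bad.filter fun a => a ∈ Av P v).card + P.card * (Ab v).card +
        10 ^ 9 * D ^ 2 * (Loc.filter fun x => x.1 ∈ Av P v ∧ x.2 ∈ Av P v).card) := by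
    intro v hv
    have b1 : Av P v ⊆ (Bad.filter fun a => a ∈ Av P v) ∪ Ab v ∪ Cr v := fun a ha => by
      have := (mem_filter.1 ha).1
      simp only [Bad, Ab, Cr, mem_filter, mem_union, ← not_le]
      grind
    have b2 := (card_le_card b1).trans ((card_union_le _ _).trans
      (Nat.add_le_add_right (card_union_le _ _) _))
    have b3 := card_filter_le Bad fun a => a ∈ Av P v
    have b4 : (Ab v).card ≤ P.card := (card_filter_le _ _).trans (card_le_card h1)
    have b5 : (Cr v).card ^ 2 ≤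
        10 ^ 9 * D ^ 2 * (Loc.filter fun x => x.1 ∈ Av P v ∧ x.2 ∈ Av P v).card := by
      refine (sq_le_pairs _ lab).trans (Nat.mul_le_mul (le_trans (card_le_card
        (image_subset_image fun a ha => ?_)) (h5 v (mem_of_mem_erase hv))) (card_le_card ?_))
      · obtain ⟨c1, c2, c3⟩ := mem_filter.1 ha
        exact mem_filter.2 ⟨c2, (mem_filter.1 (Av_sub hP v c1)).2, c3⟩
      · intro x hx
        simp only [Cr, Loc, mem_filter, mem_product] at hx ⊢
        tauto
    generalize (Bad.filter fun a => a ∈ Av P v).card = b at *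
    generalize (Ab v).card = s at *
    generalize (Cr v).card = t at *
    have b6 := Nat.pow_le_pow_left b2 2
    have b7 := Nat.mul_le_mul_right b b3
    have b8 := Nat.mul_le_mul_right s b4
    have b9 : (b + s + t) ^ 2 ≤ 3 * (b * b + s * s + t ^ 2) := by
      zify
      nlinarith [sq_nonneg (b - s : ℤ), sq_nonneg (b - t : ℤ), sq_nonneg (s - t : ℤ)]
    omega
  have hB : ∑ v ∈ (P - P).erase 0, (Bad.filter fun a => a ∈ Av P v).card ≤ Bad.card * P.card := by
    rw [sum_card_comm]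
    exact sum_le_card_nsmul _ _ _ fun a _ => card_le_card_of_injOn (fun v => a - v)
      (fun v hv => (mem_filter.1 (mem_filter.1 hv).2).2) fun v _ v' _ h => by simpa using h
  have hA : ∑ v ∈ (P - P).erase 0, (Ab v).card ≤ P.card := by
    rw [sum_card_comm]
    refine (sum_le_card_nsmul _ _ 1 fun a _ => ?_).trans (by simpa using card_le_card h1)
    refine card_le_one.2 fun v hv v' hv' => by_contra fun h => ?_
    obtain ⟨c1, c2, c3⟩ := mem_filter.1 hv
    obtain ⟨c4, -, c5⟩ := mem_filter.1 hv'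
    refine c2.not_ge (le_trans (card_le_card fun a' ha' => ?_)
      (hK v v' (ne_of_mem_erase c1) (ne_of_mem_erase c4) h))
    obtain ⟨c6, c7⟩ := mem_filter.1 ha'
    exact mem_filter.2 ⟨h1 c6, c3 a' c6 c7, c5 a' c6 c7⟩
  have hC := pairs_le (P := P) Loc ((filter_subset _ _).trans (product_subset_product h1 h1))
    (2 * K * D ^ 3) ((P - P).erase 0)
  have hT := hC.trans (Nat.add_le_add_left (Nat.add_le_add_left (tail hP hK (k := 2 * K * D ^ 3)
    (Nat.le_mul_of_pos_right _ (by positivity)) (by positivity) (by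
      calc K ^ 3 * P.card ^ 2 ≤ K ^ 5 * (2 ^ 15 * D ^ 15) :=
            Nat.mul_le_mul (Nat.pow_le_pow_right hK1 (by norm_num)) hj
        _ = _ := by ring) _ fun w hw => (mem_filter.1 hw).2) _) _)
  have hE := sum_le_sum hsplit
  rw [← mul_sum, sum_add_distrib, sum_add_distrib, ← mul_sum, ← mul_sum, ← mul_sum] at hE
  have hE' : P.addEnergy P ≤ P.card ^ 2 + ∑ v ∈ (P - P).erase 0, (Av P v).card ^ 2 := by
    refine energy_le.trans ((sum_le_sum_of_subset
      ((subset_insert_iff (a := 0)).2 subset_rfl)).trans ?_)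
    rw [sum_insert (notMem_erase _ _)]
    exact add_le_add (Nat.pow_le_pow_left (Av_le _) 2) le_rfl
  refine hE'.trans ((Nat.add_le_add_left hE _).trans ?_)
  have b1 := Nat.mul_le_mul hBad (hB.trans (Nat.mul_le_mul_right _ hBad))
  have b2 := Nat.mul_le_mul_left P.card hA
  have b3 := Nat.mul_le_mul_left (10 ^ 9 * D ^ 2) hT
  have b4 := Nat.mul_le_mul_left (4 * 10 ^ 18 * K ^ 2 * D ^ 2 * P.card) hj'
  have b5 := Nat.mul_le_mul_left (2 * 10 ^ 9 * D ^ 2 * K) hLoc
  have b6 : 1 ≤ K ^ 2 := Nat.one_le_pow _ _ hK1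
  have b7 : K ≤ K ^ 2 := Nat.le_self_pow (by norm_num) _
  have b8 := Nat.mul_le_mul_right (P.card ^ 2 * D ^ 2) b6
  have b9 := Nat.mul_le_mul_right (P.card ^ 2 * D ^ 2) b7
  have b10 := Nat.mul_le_mul_left (P.card ^ 2) (Nat.one_le_pow 2 _ hD)
  nlinarith

theorem energy_real {ε : ℝ} (hε : 0 < ε) : ∃ C : ℝ, ∀ n : ℕ, 1 ≤ n → ∀ P : Finset (Fin 4 → ℤ),
    (∀ x ∈ P, ∑ i, x i ^ 2 = (n : ℤ) ^ 2) →
    (P.addEnergy P : ℝ) ≤ C * (P.card : ℝ) ^ (34 / 15 : ℝ) * (n : ℝ) ^ ε := by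
  obtain ⟨C, hC, h⟩ := circle_bound (half_pos hε)
  refine ⟨10 ^ 67 * (C + 1) ^ 2, fun n hn P hP => ?_⟩
  rcases P.eq_empty_or_nonempty with rfl | hne
  · simp
  have hm : 0 < P.card := hne.card_pos
  replace hP : ∀ a ∈ P, a ⬝ᵥ a = n ^ 2 := fun a ha => by
    rw [← hP a ha, dotProduct]; simp only [sq]
  have hn1 : (1 : ℝ) ≤ (n : ℝ) ^ (ε / 2) := Real.one_le_rpow (by exact_mod_cast hn) (by linarith)
  set K := ⌈C * (n : ℝ) ^ (ε / 2)⌉₊ with hKd
  have hK : FewCirc P K := fun v v' hv hv' hvv => by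
    have := h n hn v v' hv hv' hvv (P.filter fun a => On v a ∧ On v' a) fun a ha =>
      ⟨hP a (mem_filter.1 ha).1, (mem_filter.1 ha).2⟩
    exact_mod_cast this.trans (Nat.le_ceil _)
  have hK1 : 1 ≤ K := Nat.one_le_ceil_iff.2 (by positivity)
  have hK2 : (K : ℝ) ≤ (C + 1) * (n : ℝ) ^ (ε / 2) := by
    have := Nat.ceil_lt_add_one (a := C * (n : ℝ) ^ (ε / 2)) (by positivity)
    linarith
  have ex : ∃ j, P.card ^ 2 ≤ 2 ^ 15 * (2 ^ j) ^ 15 :=
    ⟨P.card ^ 2, Nat.lt_two_pow_self.le.trans ((Nat.le_self_pow (by norm_num) _).trans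
      (Nat.le_mul_of_pos_left _ (by norm_num)))⟩
  have hj := Nat.find_spec ex
  have hj' : (2 ^ Nat.find ex) ^ 15 ≤ P.card ^ 2 := by
    rcases h : Nat.find ex with _ | j
    · simpa using Nat.one_le_pow 2 _ hm
    · have := Nat.find_min ex (m := j) (by omega)
      rw [pow_succ 2 j, mul_pow]
      omega
  have hD : 1 ≤ 2 ^ Nat.find ex := Nat.one_le_two_pow
  have h1 := energy_nat hn hP hK hK1 _ hj (by
    refine (Nat.pow_le_pow_iff_left two_ne_zero).1 (le_trans ?_ hj')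
    rw [← pow_mul]
    exact Nat.pow_le_pow_right hD (by norm_num))
  generalize 2 ^ Nat.find ex = D at *
  have hm' : (0 : ℝ) < P.card := by exact_mod_cast hm
  have h2 : (D : ℝ) ^ 2 ≤ (P.card : ℝ) ^ (4 / 15 : ℝ) := by
    refine (pow_le_pow_iff_left₀ (by positivity) (by positivity) (n := 15) (by norm_num)).1 ?_
    rw [← Real.rpow_natCast (_ ^ (4 / 15 : ℝ)), ← Real.rpow_mul hm'.le]
    norm_num
    rw [← pow_mul, mul_comm, pow_mul, pow_mul _ 2 2]
    exact_mod_cast Nat.pow_le_pow_left hj' 2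
  calc (P.addEnergy P : ℝ) ≤ 10 ^ 67 * (K : ℝ) ^ 2 * (P.card : ℝ) ^ 2 * (D : ℝ) ^ 2 := by
        exact_mod_cast h1
    _ ≤ 10 ^ 67 * ((C + 1) * (n : ℝ) ^ (ε / 2)) ^ 2 * (P.card : ℝ) ^ 2 *
        (P.card : ℝ) ^ (4 / 15 : ℝ) := by gcongr
    _ = _ := by
      rw [show (34 / 15 : ℝ) = 2 + 4 / 15 by norm_num, Real.rpow_add hm', Real.rpow_two, mul_pow,
        ← Real.rpow_natCast (_ ^ (ε / 2)), ← Real.rpow_mul (by positivity)]
      norm_num
      ring

end Pool.Agent.Lib.MP_fb430f_co
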