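import Pool.Agent.Lib.MP_fb430f_co.Comp
import Pool.Agent.Lib.MP_fb430f_co.Ham

set_option autoImplicit false

namespace Pool.Agent.Lib.MP_fb430f_co

open Finset MvPolynomial Module Topology

variable {n : ℕ} {ι : Type*}

lemma exists_eval_ne {F : MvPolynomial (Fin n) ℝ} (hF : F ≠ 0) {y : Fin n → ℝ}
    {V : Set (Fin n → ℝ)} (hV : V ∈ 𝓝 y) : ∃ x ∈ V, eval x F ≠ 0 := by
  obtain ⟨ε, hε, h⟩ := Metric.mem_nhds_iff.1 hV
  by_contra hn
  push Not at hn
  refine hF (funext_set (fun i => Metric.ball (y i) ε) (fun i => ?_) fun x hx => ?_)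
  · rw [Real.ball_eq_Ioo]; exact Set.Ioo_infinite (by linarith)
  · rw [map_zero]
    exact hn x (h (by rwa [ball_pi y hε]))

lemma exists_gen (s : Finset ι) (y : ι → Fin n → ℝ) (V : ι → Set (Fin n → ℝ))
    (hV : ∀ i, V i ∈ 𝓝 (y i)) (d : ℕ) : ∃ y' : ι → Fin n → ℝ, (∀ i, y' i ∈ V i) ∧
      ∀ F : MvPolynomial (Fin n) ℝ, F ≠ 0 → F.totalDegree ≤ d →
        ∀ t ⊆ s, (∀ i ∈ t, eval (y' i) F = 0) → t.card ≤ (d + 1) ^ n := by
  classical
  let W := restrictTotalDegree (Fin n) ℝ d
  let K : (ι → Fin n → ℝ) → Finset ι → Submodule ℝ W := fun z t =>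
    { carrier := {F | ∀ i ∈ t, eval (z i) F.1 = 0}
      add_mem' := fun h1 h2 i hi => by simp [h1 i hi, h2 i hi]
      zero_mem' := by simp
      smul_mem' := fun c F h i hi => by simp [smul_eval, h i hi] }
  have hW : finrank ℝ W ≤ (d + 1) ^ n := by
    by_contra h
    obtain ⟨c, hc, h0⟩ := exists_dep (fun i => (finBasis ℝ W i).1) d
      (fun i => (mem_restrictTotalDegree _ _ _).1 (finBasis ℝ W i).2) (by simpa using h)
    refine hc (funext (Fintype.linearIndependent_iff.1 (finBasis ℝ W).linearIndependent c ?_))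
    exact Subtype.ext (by simpa using h0)
  have key : ∃ y' : ι → Fin n → ℝ, (∀ i, y' i ∈ V i) ∧
      ∀ t ⊆ s, finrank ℝ (K y' t) ≤ finrank ℝ W - t.card := by
    induction s using Finset.induction_on with
    | empty =>
      refine ⟨y, fun i => mem_of_mem_nhds (hV i), fun t ht => ?_⟩
      rw [subset_empty.1 ht]
      exact Submodule.finrank_le _
    | insert a s ha ih =>
      obtain ⟨z, hz, hz'⟩ := ih
      have : ∀ t : Finset ι, ∃ F : MvPolynomial (Fin n) ℝ, F ≠ 0 ∧
          (K z t ≠ ⊥ → ∃ G ∈ K z t, G.1 = F) := fun t => by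
        by_cases h : K z t = ⊥
        · exact ⟨1, one_ne_zero, fun h' => absurd h h'⟩
        · obtain ⟨G, hG, hG0⟩ := Submodule.exists_mem_ne_zero_of_ne_bot h
          exact ⟨G.1, fun h => hG0 (Subtype.ext h), fun _ => ⟨G, hG, rfl⟩⟩
      choose Fn hFn hFn' using this
      obtain ⟨x, hx, hx'⟩ := exists_eval_ne
        (prod_ne_zero_iff.2 fun t (_ : t ∈ s.powerset) => hFn t) (hV a)
      rw [map_prod, prod_ne_zero_iff] at hx'
      have same : ∀ t ⊆ s, K (Function.update z a x) t = K z t := fun t ht =>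
        Submodule.ext fun F => forall₂_congr fun i hi => by
          rw [Function.update_of_ne (fun h : i = a => ha (h ▸ ht hi))]
      refine ⟨Function.update z a x, fun i => ?_, fun t ht => ?_⟩
      · by_cases h : i = a
        · subst h; simpa using hx
        · rw [Function.update_of_ne h]; exact hz i
      · by_cases h : a ∈ t
        · have ht' : t.erase a ⊆ s := subset_insert_iff.1 ht
          have hle : K (Function.update z a x) t ≤ K z (t.erase a) := by
            rw [← same _ ht']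
            exact fun F hF i hi => hF i (mem_of_mem_erase hi)
          by_cases h0 : K z (t.erase a) = ⊥
          · rw [h0, le_bot_iff] at hle
            rw [hle, finrank_bot]; exact Nat.zero_le _
          · obtain ⟨G, hG, hG'⟩ := hFn' _ h0
            have hlt : K (Function.update z a x) t < K z (t.erase a) :=
              lt_of_le_of_ne hle fun e => hx' _ (mem_powerset.2 ht') (by
                have := (e ▸ hG : G ∈ K (Function.update z a x) t) a h
                rwa [Function.update_self, hG'] at this)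
            have h1 := Submodule.finrank_lt_finrank_of_lt hlt
            have h2 := hz' _ ht'
            rw [card_erase_of_mem h] at h2
            omega
        · have ht' : t ⊆ s := (subset_insert_iff_of_notMem h).1 ht
          rw [same _ ht']
          exact hz' t ht'
  obtain ⟨y', h1, h2⟩ := key
  refine ⟨y', h1, fun F hF hd t ht h0 => ?_⟩
  have h3 : 0 < finrank ℝ (K y' t) := by
    refine Nat.pos_of_ne_zero fun h => hF ?_
    have h4 : (⟨F, (mem_restrictTotalDegree _ _ _).2 hd⟩ : W) ∈ K y' t := h0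
    rw [Submodule.finrank_eq_zero.1 h] at h4
    exact congrArg Subtype.val ((Submodule.mem_bot ℝ).1 h4)
  have := h2 t ht
  omega

lemma sign_cell {F f : MvPolynomial (Fin n) ℝ} {x x' : Fin n → ℝ} (h : x' ∈ cell (F * f) x) :
    x' ∈ cell F x ∧ (0 < eval x f ↔ 0 < eval x' f) := by
  have hsub : cell (F * f) x ⊆ {y | eval y (F * f) ≠ 0} := connectedComponentIn_subset _ _
  refine ⟨connectedComponentIn_mono x (fun y hy => ?_) h, ?_⟩
  · simp only [Set.mem_ofPred_eq, map_mul] at hy ⊢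
    exact left_ne_zero_of_mul hy
  · have hx : x ∈ cell (F * f) x := mem_connectedComponentIn (connectedComponentIn_nonempty_iff.1 ⟨x', h⟩)
    have key : ∀ a ∈ cell (F * f) x, ∀ b ∈ cell (F * f) x, 0 < eval a f → 0 < eval b f := by
      intro a ha b hb h1
      by_contra h2
      obtain ⟨z, hz, hz'⟩ := isPreconnected_connectedComponentIn.intermediate_value hb ha
        f.continuous_eval.continuousOn ⟨not_lt.1 h2, h1.le⟩
      exact hsub hz (by rw [map_mul, show eval z f = 0 from hz', mul_zero])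
    exact ⟨key x hx x' h, key x' h x hx⟩

open Classical in
/-- A stage of the polynomial partitioning. -/
def PartSt (s : Finset ι) (y : ι → Fin n → ℝ) (l d : ℕ) : Prop :=
  ∃ (F : MvPolynomial (Fin n) ℝ) (κ : Type) (_ : Fintype κ) (c : (Fin n → ℝ) → κ),
    F ≠ 0 ∧ F.totalDegree ≤ d ∧ Fintype.card κ = 2 ^ l ∧ (∀ x, ∀ x' ∈ cell F x, c x' = c x) ∧
    ∀ k, 2 ^ l * (s.filter fun i => eval (y i) F ≠ 0 ∧ c (y i) = k).card ≤ s.card

lemma PartSt.step {s : Finset ι} {y : ι → Fin n → ℝ} {l d e : ℕ} (h : PartSt s y l d)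
    (he : 2 ^ l < (e + 1) ^ n) : PartSt s y (l + 1) (d + n * e) := by
  classical
  obtain ⟨F, κ, _, c, hF, hd, hκ, hc, hs⟩ := h
  let emb : (Fin n → Fin (e + 1)) → (Fin n →₀ ℕ) := fun β =>
    Finsupp.equivFunOnFinite.symm fun i => (β i : ℕ)
  have hemb : Function.Injective emb := fun β γ h => funext fun i =>
    Fin.ext (by simpa [emb] using DFunLike.congr_fun h i)
  let L : ((Fin n → Fin (e + 1)) → ℝ) →ₗ[ℝ] MvPolynomial (Fin n) ℝ :=
    ∑ β, (monomial (emb β)).comp (LinearMap.proj β)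
  have hL : ∀ g, L g = ∑ β, monomial (emb β) (g β) := fun g => by simp [L]
  obtain ⟨g, hg, hg'⟩ := ham (fun k => s.filter fun i => eval (y i) F ≠ 0 ∧ c (y i) = k)
    (fun i => (aeval (y i)).toLinearMap.comp L) (by simpa [hκ] using he)
  have hf : L g ≠ 0 := fun h => hg (funext fun α => by
    have := congrArg (coeff (emb α)) h
    simpa [hL, coeff_sum, coeff_monomial, hemb.eq_iff] using this)
  refine ⟨F * L g, κ × Bool, inferInstance, fun x => (c x, decide (0 < eval x (L g))),
    mul_ne_zero hF hf, (totalDegree_mul _ _).trans (add_le_add hd ?_), by simp [hκ, pow_succ],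
    fun x x' h => ?_, ?_⟩
  · rw [hL]
    refine totalDegree_finsetSum_le fun β _ => (totalDegree_monomial_le _ _).trans ?_
    rw [Finsupp.sum_fintype _ _ (fun _ => rfl)]
    refine (sum_le_card_nsmul _ _ e fun i _ => ?_).trans (by simp)
    have := (β i).2
    simp only [emb, Finsupp.coe_equivFunOnFinite_symm, id]
    omega
  · obtain ⟨h1, h2⟩ := sign_cell h
    simp only [hc x x' h1, h2]
  · rintro ⟨k, b⟩
    refine le_trans ?_ (hs k)
    rw [pow_succ, mul_assoc]
    refine Nat.mul_le_mul_left _ ?_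
    cases b
    · refine le_trans (Nat.mul_le_mul_left _ (card_le_card fun i hi => ?_)) (hg' k).2
      simp only [mem_filter, map_mul, mul_ne_zero_iff, Prod.mk.injEq, decide_eq_false_iff_not,
        not_lt] at hi ⊢
      exact ⟨⟨hi.1, hi.2.1.1, hi.2.2.1⟩, lt_of_le_of_ne hi.2.2.2 hi.2.1.2⟩
    · refine le_trans (Nat.mul_le_mul_left _ (card_le_card fun i hi => ?_)) (hg' k).1
      simp only [mem_filter, map_mul, mul_ne_zero_iff, Prod.mk.injEq, decide_eq_true_eq] at hi ⊢
      exact ⟨⟨hi.1, hi.2.1.1, hi.2.2.1⟩, hi.2.2.2⟩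

lemma partSt (s : Finset ι) (y : ι → Fin n → ℝ) (j : ℕ) :
    PartSt s y (n * j) (n * n * 2 ^ (j + 1)) := by
  induction j with
  | zero =>
    exact ⟨1, Unit, inferInstance, fun _ => (), one_ne_zero, by simp, by simp, fun _ _ _ => rfl,
      fun k => by simp⟩
  | succ j ih =>
    have key : ∀ i ≤ n, PartSt s y (n * j + i) (n * n * 2 ^ (j + 1) + i * (n * 2 ^ (j + 1))) := by
      intro i hi
      induction i with
      | zero => simpa using ih
      | succ i ih' =>
        rw [← add_assoc, add_mul, one_mul, ← add_assoc]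
        refine (ih' (by omega)).step ?_
        calc 2 ^ (n * j + i) < 2 ^ ((j + 1) * n) := Nat.pow_lt_pow_right (by norm_num) (by nlinarith)
          _ = (2 ^ (j + 1)) ^ n := by rw [pow_mul]
          _ ≤ _ := Nat.pow_le_pow_left (Nat.le_succ _) _
    convert key n le_rfl using 1 <;> ring

open Classical in
/-- Polynomial partitioning. -/
theorem exists_partition (s : Finset ι) (y : ι → Fin n → ℝ) (j : ℕ) :
    ∃ F : MvPolynomial (Fin n) ℝ, F ≠ 0 ∧ F.totalDegree ≤ n * n * 2 ^ (j + 1) ∧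
      ∀ U, 2 ^ (n * j) * (s.filter fun i => eval (y i) F ≠ 0 ∧ cell F (y i) = U).card ≤ s.card := by
  obtain ⟨F, κ, _, c, hF, hd, -, hc, hs⟩ := partSt s y j
  refine ⟨F, hF, hd, fun U => ?_⟩
  rcases (s.filter fun i => eval (y i) F ≠ 0 ∧ cell F (y i) = U).eq_empty_or_nonempty with h | h
  · rw [h]; simp
  · obtain ⟨i, hi⟩ := h
    refine le_trans (Nat.mul_le_mul_left _ (card_le_card fun i' hi' => ?_)) (hs (c (y i)))
    rw [mem_filter] at hi hi' ⊢
    refine ⟨hi'.1, hi'.2.1, hc _ _ ?_⟩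
    rw [hi.2.2, ← hi'.2.2]
    exact mem_connectedComponentIn hi'.2.1

lemma cell_bound_param {k e d : ℕ} (N : Fin n → MvPolynomial (Fin k) ℝ)
    (Δ : MvPolynomial (Fin k) ℝ) (hN : ∀ i, (N i).totalDegree ≤ e) (hΔ : Δ.totalDegree ≤ e)
    (hΔ0 : ∀ u, eval u Δ ≠ 0) (F : MvPolynomial (Fin n) ℝ) (hF : F.totalDegree ≤ d)
    (T : Finset (Fin n → ℝ)) (hT : ∀ x ∈ T, eval x F ≠ 0)
    (hT' : ∀ x ∈ T, ∃ u, x = fun i => eval u (N i) / eval u Δ) (hinj : Set.InjOn (cell F) T) :
    T.card ≤ (k * (e * d + 2) + 1) ^ k := by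
  classical
  let φ : (Fin k → ℝ) → Fin n → ℝ := fun u i => eval u (N i) / eval u Δ
  have hφ : Continuous φ := continuous_pi fun i =>
    (N i).continuous_eval.div Δ.continuous_eval hΔ0
  let F' : MvPolynomial (Fin k) ℝ := ∑ α ∈ F.support,
    C (coeff α F) * (∏ i, N i ^ α i) * Δ ^ (d - ∑ i, α i)
  have hα : ∀ α ∈ F.support, ∑ i, α i ≤ d := fun α h => by
    have := (le_totalDegree h).trans hF
    rwa [Finsupp.sum_fintype _ _ (fun _ => rfl)] at this
  have hF' : F'.totalDegree ≤ e * d := totalDegree_finsetSum_le fun α h => by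
    refine (totalDegree_mul _ _).trans ?_
    have h1 : (C (coeff α F) * ∏ i, N i ^ α i).totalDegree ≤ (∑ i, α i) * e := by
      refine (totalDegree_mul _ _).trans ?_
      rw [totalDegree_C, zero_add, sum_mul]
      exact (totalDegree_finsetProd _ _).trans (sum_le_sum fun i _ =>
        (totalDegree_pow _ _).trans (Nat.mul_le_mul_left _ (hN i)))
    have h2 := (totalDegree_pow Δ (d - ∑ i, α i)).trans (Nat.mul_le_mul_left _ hΔ)
    calc _ ≤ (∑ i, α i) * e + (d - ∑ i, α i) * e := add_le_add h1 h2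
      _ = e * d := by rw [← add_mul, Nat.add_sub_cancel' (hα α h), mul_comm]
  have hev : ∀ u, eval u F' = eval u Δ ^ d * eval (φ u) F := fun u => by
    rw [eval_eq' (φ u) F, mul_sum, map_sum]
    refine sum_congr rfl fun α h => ?_
    simp only [map_mul, eval_C, map_prod, map_pow, φ, div_pow, prod_div_distrib,
      prod_pow_eq_pow_sum]
    rw [pow_sub₀ _ (hΔ0 u) (hα α h)]
    ring
  choose! u hu using hT'
  have huT : ∀ x ∈ T, φ (u x) = x := fun x hx => (hu x hx).symm
  have hui : Set.InjOn u T := fun x hx x' hx' h => by rw [← huT x hx, ← huT x' hx', h]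
  rw [← card_image_of_injOn hui]
  refine cell_bound F' hF' _ (forall_mem_image.2 fun x hx => ?_) ?_
  · rw [hev, huT x hx]
    exact mul_ne_zero (pow_ne_zero _ (hΔ0 _)) (hT x hx)
  · simp only [coe_image]
    rintro _ ⟨x, hx, rfl⟩ _ ⟨x', hx', rfl⟩ h
    refine congrArg u (hinj hx hx' (connectedComponentIn_eq ?_))
    have h1 : u x' ∈ cell F' (u x) := by
      rw [h]
      refine mem_connectedComponentIn ?_
      rw [Set.mem_ofPred_eq, hev, huT x' hx']
      exact mul_ne_zero (pow_ne_zero _ (hΔ0 _)) (hT x' hx')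
    have h2 : u x ∈ cell F' (u x) :=
      mem_connectedComponentIn (connectedComponentIn_nonempty_iff.1 ⟨_, h1⟩)
    refine (isPreconnected_connectedComponentIn.image φ hφ.continuousOn).subset_connectedComponentIn
      ⟨_, h2, huT x hx⟩ ?_ ⟨_, h1, huT x' hx'⟩
    rintro _ ⟨w, hw, rfl⟩
    have := connectedComponentIn_subset _ _ hw
    rw [Set.mem_ofPred_eq, hev] at this
    exact right_ne_zero_of_mul this

lemma cell_bound_sphere {k d : ℕ} (c : Fin (k + 1) → ℝ) (r : ℝ)
    (F : MvPolynomial (Fin (k + 1)) ℝ) (hF : F.totalDegree ≤ d)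
    (T : Finset (Fin (k + 1) → ℝ)) (hT : ∀ x ∈ T, eval x F ≠ 0)
    (hT' : ∀ x ∈ T, ∑ i, (x i - c i) ^ 2 = r) (hinj : Set.InjOn (cell F) T) :
    T.card ≤ (k * (2 * d + 2) + 1) ^ k + 1 := by
  classical
  set ρ := √r with hρ
  let q : MvPolynomial (Fin k) ℝ := ∑ i, X i ^ 2
  have hq : q.totalDegree ≤ 2 := totalDegree_finsetSum_le fun i _ => by simp
  have hqe : ∀ u, eval u q = ∑ i, u i ^ 2 := fun u => by simp [q]
  have hq0 : ∀ u : Fin k → ℝ, 0 ≤ ∑ i, u i ^ 2 := fun u => sum_nonneg fun _ _ => sq_nonneg _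
  have h1 : (1 + q).totalDegree ≤ 2 := (totalDegree_add _ _).trans (max_le (by simp) hq)
  let M : Fin (k + 1) → MvPolynomial (Fin k) ℝ := Fin.cons (q - 1) fun i => C 2 * X i
  have hM : ∀ i, (M i).totalDegree ≤ 2 := fun i => by
    refine Fin.cases ?_ (fun i => ?_) i
    · exact (totalDegree_sub _ _).trans (max_le hq (by simp))
    · exact (totalDegree_mul _ _).trans (by rw [totalDegree_C, totalDegree_X]; norm_num)
  let p : Fin (k + 1) → ℝ := Fin.cons (c 0 + ρ) fun i => c i.succ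
  refine tsub_le_iff_right.1 (pred_card_le_card_erase (a := p).trans ?_)
  refine cell_bound_param (fun i => C (c i) * (1 + q) + C ρ * M i) (1 + q) (fun i => ?_) h1
    (fun u => ?_) F hF _ (fun x hx => hT x (mem_of_mem_erase hx)) (fun x hx => ?_)
    (hinj.mono (coe_subset.2 (erase_subset _ _)))
  · refine (totalDegree_add _ _).trans (max_le ?_ ?_)
    · exact (totalDegree_mul _ _).trans (by rw [totalDegree_C, zero_add]; exact h1)
    · exact (totalDegree_mul _ _).trans (by rw [totalDegree_C, zero_add]; exact hM i)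
  · rw [map_add, map_one, hqe]
    linarith [hq0 u]
  · obtain ⟨hxp, hx⟩ := mem_erase.1 hx
    have h2 := hT' x hx
    have h3 : ρ ^ 2 = r := Real.sq_sqrt (h2 ▸ sum_nonneg fun _ _ => sq_nonneg _)
    rw [Fin.sum_univ_succ] at h2
    set t := ρ - (x 0 - c 0) with ht
    have ht0 : t ≠ 0 := fun h => hxp (funext fun i => by
      refine Fin.cases ?_ (fun i => ?_) i
      · simp only [p, Fin.cons_zero]; linarith
      · have h4 : ∑ i : Fin k, (x i.succ - c i.succ) ^ 2 = 0 := by
          have : x 0 - c 0 = ρ := by linarith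
          rw [this] at h2; linarith
        have := (sum_eq_zero_iff_of_nonneg fun _ _ => sq_nonneg _).1 h4 i (mem_univ _)
        simp only [p, Fin.cons_succ]
        nlinarith)
    refine ⟨fun i => (x i.succ - c i.succ) / t, funext fun i => ?_⟩
    have h5 : ∑ i : Fin k, ((x i.succ - c i.succ) / t) ^ 2 = (2 * ρ - t) / t := by
      simp only [div_pow, ← sum_div]
      rw [div_eq_div_iff (pow_ne_zero _ ht0) ht0]
      have : ∑ i : Fin k, (x i.succ - c i.succ) ^ 2 = ρ ^ 2 - (x 0 - c 0) ^ 2 := by linarith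
      rw [this, ht]; ring
    have h6 : 1 + (2 * ρ - t) / t = 2 * ρ / t := by field_simp; ring
    have h7 : ρ ≠ 0 := fun h => by
      have := hq0 fun i => (x i.succ - c i.succ) / t
      rw [h5, h, mul_zero, zero_sub, neg_div, div_self ht0] at this
      linarith
    refine Fin.cases ?_ (fun i => ?_) i
    · simp only [map_add, map_mul, eval_C, map_one, hqe, M, Fin.cons_zero, map_sub, h5, h6]
      field_simp
      rw [ht]; ring
    · simp only [map_add, map_mul, eval_C, map_one, hqe, M, Fin.cons_succ, eval_X, h5, h6]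
      field_simp
      ring

open Classical in
/-- Partition of a finite family of points into groups, few of which are cut by each member of a
family of hypersurfaces. -/
theorem exists_groups {J : Type*} (s : Finset ι) (y : ι → Fin n → ℝ) (j : ℕ) (𝒥 : Finset J)
    (g : J → (Fin n → ℝ) → ℝ) (hg : ∀ a, Continuous (g a)) (B : ℕ)
    (hB : ∀ δ : ℝ, 0 < δ → δ < 1 → ∀ a ∈ 𝒥, ∀ F : MvPolynomial (Fin n) ℝ,
      F.totalDegree ≤ n * n * 2 ^ (j + 1) → ∀ T : Finset (Fin n → ℝ), (∀ x ∈ T, eval x F ≠ 0) →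
      (∀ x ∈ T, |g a x| = δ) → Set.InjOn (cell F) T → T.card ≤ B) :
    ∃ (s' : Finset ι) (lab : ι → Set (Fin n → ℝ)), s' ⊆ s ∧
      s.card ≤ s'.card + (n * n * 2 ^ (j + 1) + 1) ^ n ∧
      (s'.image lab).card ≤ (n * (n * n * 2 ^ (j + 1) + 2) + 1) ^ n ∧
      (∀ U, 2 ^ (n * j) * (s'.filter fun i => lab i = U).card ≤ s.card) ∧
      ∀ a ∈ 𝒥, ((s'.filter fun i => g a (y i) = 0 ∧
        ∃ i' ∈ s', lab i' = lab i ∧ g a (y i') ≠ 0).image lab).card ≤ B := by
  obtain ⟨δ, hδ, hδ1, hδ'⟩ : ∃ δ : ℝ, 0 < δ ∧ δ < 1 ∧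
      ∀ a ∈ 𝒥, ∀ i ∈ s, g a (y i) ≠ 0 → 2 * δ ≤ |g a (y i)| := by
    have h1 : ∀ᶠ δ : ℝ in 𝓝[>] 0, ∀ a ∈ 𝒥, ∀ i ∈ s, g a (y i) ≠ 0 → 2 * δ ≤ |g a (y i)| := by
      simp only [Filter.eventually_all_finset]
      intro a _ i _
      by_cases h : g a (y i) = 0
      · simp [h]
      · filter_upwards [Ioo_mem_nhdsGT (half_pos (abs_pos.2 h))] with δ hδ _
        linarith [hδ.2]
    obtain ⟨δ, h2, h3⟩ := (h1.and (Ioo_mem_nhdsGT one_pos)).exists
    exact ⟨δ, h3.1, h3.2, h2⟩
  obtain ⟨y', hy', hgen⟩ := exists_gen s y (fun i => {x | ∀ a ∈ 𝒥, |g a x - g a (y i)| < δ})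
    (fun i => by
      refine (Filter.eventually_all_finset 𝒥).2 fun a _ => ?_
      exact (isOpen_lt (((hg a).sub continuous_const).abs) continuous_const).mem_nhds
        (by simpa using hδ)) (n * n * 2 ^ (j + 1))
  obtain ⟨F, hF, hd, hs⟩ := exists_partition s y' j
  have rep : ∀ (t : Finset ι) (P : (Fin n → ℝ) → Prop) (M : ℕ),
      (∀ i ∈ t, ∃ x, eval x F ≠ 0 ∧ P x ∧ cell F x = cell F (y' i)) →
      (∀ T : Finset (Fin n → ℝ), (∀ x ∈ T, eval x F ≠ 0) → (∀ x ∈ T, P x) →
        Set.InjOn (cell F) T → T.card ≤ M) → (t.image fun i => cell F (y' i)).card ≤ M := by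
    intro t P M h1 h2
    have h3 : ∀ U ∈ t.image fun i => cell F (y' i), ∃ x, eval x F ≠ 0 ∧ P x ∧ cell F x = U :=
      forall_mem_image.2 h1
    choose! x hx1 hx2 hx3 using h3
    have h4 : Set.InjOn x (t.image fun i => cell F (y' i)) := fun U hU U' hU' h => by
      rw [← hx3 U hU, ← hx3 U' hU', h]
    rw [← card_image_of_injOn h4]
    refine h2 _ (forall_mem_image.2 hx1) (forall_mem_image.2 hx2) ?_
    rw [coe_image]
    rintro _ ⟨U, hU, rfl⟩ _ ⟨U', hU', rfl⟩ h
    rw [hx3 U hU, hx3 U' hU'] at h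
    rw [h]
  refine ⟨s.filter fun i => eval (y' i) F ≠ 0, fun i => cell F (y' i), filter_subset _ _, ?_,
    rep _ (fun _ => True) _ (fun i hi => ⟨_, (mem_filter.1 hi).2, trivial, rfl⟩)
      fun T h1 _ h2 => cell_bound F hd T h1 h2, fun U => ?_, fun a ha => ?_⟩
  · rw [← card_filter_add_card_filter_not (s := s) fun i => eval (y' i) F ≠ 0]
    exact Nat.add_le_add_left (hgen F hF hd _ (filter_subset _ _)
      fun i hi => not_not.1 (mem_filter.1 hi).2) _
  · rw [filter_filter]; exact hs U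
  · refine rep _ (fun x => |g a x| = δ) _ (fun i hi => ?_) (hB δ hδ hδ1 a ha F hd)
    simp only [mem_filter] at hi
    obtain ⟨⟨-, hi⟩, h0, i', ⟨hi's, hi'⟩, h1, h2⟩ := hi
    have h3 := hy' i a ha
    have h4 := hy' i' a ha
    have h5 := hδ' a ha i' hi's h2
    rw [h0, sub_zero] at h3
    have h6 : δ ≤ |g a (y' i')| := by
      have := abs_sub_abs_le_abs_sub (g a (y i')) (g a (y' i'))
      rw [abs_sub_comm] at h4
      linarith
    have h7 : y' i' ∈ cell F (y' i) := by rw [← h1]; exact mem_connectedComponentIn hi'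
    obtain ⟨x, hx, hx'⟩ := isPreconnected_connectedComponentIn.intermediate_value
      (mem_connectedComponentIn hi) h7 (hg a).abs.continuousOn ⟨h3.le, h6⟩
    exact ⟨x, connectedComponentIn_subset _ _ hx, hx', (connectedComponentIn_eq hx).symm⟩

end Pool.Agent.Lib.MP_fb430f_co
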