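import Pool.Agent.Lib.MP_fb430f_co.Part

set_option autoImplicit false

namespace Pool.Agent.Lib.MP_fb430f_co

open Finset MvPolynomial

lemma cell_bound_two {k d : ℕ} (c c' : Fin (k + 1) → ℝ) (r r' : ℝ)
    (F : MvPolynomial (Fin (k + 1)) ℝ) (hF : F.totalDegree ≤ d)
    (T : Finset (Fin (k + 1) → ℝ)) (hT : ∀ x ∈ T, eval x F ≠ 0)
    (hT' : ∀ x ∈ T, ∑ i, (x i - c i) ^ 2 = r ∨ ∑ i, (x i - c' i) ^ 2 = r')
    (hinj : Set.InjOn (cell F) T) : T.card ≤ 2 * ((k * (2 * d + 2) + 1) ^ k + 1) := by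
  classical
  rw [← card_filter_add_card_filter_not (s := T) fun x => ∑ i, (x i - c i) ^ 2 = r, two_mul]
  refine add_le_add (cell_bound_sphere c r F hF _ (fun x hx => hT x (mem_filter.1 hx).1)
    (fun x hx => (mem_filter.1 hx).2) (hinj.mono (coe_subset.2 (filter_subset _ _))))
    (cell_bound_sphere c' r' F hF _ (fun x hx => hT x (mem_filter.1 hx).1)
    (fun x hx => (hT' x (mem_filter.1 hx).1).resolve_left (mem_filter.1 hx).2)
    (hinj.mono (coe_subset.2 (filter_subset _ _))))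

/-- The point `a` lies on the hyperplane attached to the difference `v`. -/
abbrev On (v a : Fin 4 → ℤ) : Prop := 2 * (a ⬝ᵥ v) = v ⬝ᵥ v

open Classical in
lemma groups4 (W P : Finset (Fin 4 → ℤ)) (j : ℕ) :
    ∃ (W' : Finset (Fin 4 → ℤ)) (lab : (Fin 4 → ℤ) → Set (Fin 4 → ℝ)), W' ⊆ W ∧
      W.card ≤ W'.card + 10 ^ 9 * (2 ^ j) ^ 4 ∧ (W'.image lab).card ≤ 10 ^ 9 * (2 ^ j) ^ 4 ∧
      (∀ U, (2 ^ j) ^ 4 * (W'.filter fun i => lab i = U).card ≤ W.card) ∧
      ∀ a ∈ P, ((W'.filter fun w => On w a ∧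
        ∃ w' ∈ W', lab w' = lab w ∧ ¬ On w' a).image lab).card ≤ 10 ^ 9 * (2 ^ j) ^ 3 := by
  obtain ⟨W', lab, h1, h2, h3, h4, h5⟩ := exists_groups (n := 4) W (fun w i => (w i : ℝ)) j P
    (fun a x => 2 * ∑ i, (a i : ℝ) * x i - ∑ i, x i * x i) (fun a => by fun_prop)
    (2 * ((3 * (2 * (4 * 4 * 2 ^ (j + 1)) + 2) + 1) ^ 3 + 1))
    (fun δ _ _ a _ F hF T hT hT' hinj =>
      cell_bound_two (k := 3) (fun i => (a i : ℝ)) (fun i => (a i : ℝ)) (∑ i, (a i : ℝ) ^ 2 - δ)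
        (∑ i, (a i : ℝ) ^ 2 + δ) F hF T hT (fun x hx => by
          have := hT' x hx
          change ∑ i : Fin 4, (x i - a i) ^ 2 = _ ∨ ∑ i : Fin 4, (x i - a i) ^ 2 = _
          simp only [Fin.sum_univ_four] at this ⊢
          rcases eq_or_eq_neg_of_abs_eq this with h | h
          · left; linarith
          · right; linarith) hinj)
  have hD : 1 ≤ 2 ^ j := Nat.one_le_two_pow
  have e : ∀ w a : Fin 4 → ℤ,
      (2 * ∑ i, (a i : ℝ) * (w i : ℝ) - ∑ i, (w i : ℝ) * (w i : ℝ) = 0) ↔ On w a := fun w a => by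
    rw [sub_eq_zero, On, dotProduct, dotProduct]
    norm_cast
  simp only [ne_eq, e] at h5
  rw [mul_comm 4 j, pow_mul] at h4
  rw [pow_succ 2 j] at h2 h3 h5
  generalize 2 ^ j = D at *
  refine ⟨W', lab, h1, h2.trans (Nat.add_le_add_left ?_ _), h3.trans ?_, h4,
    fun a ha => (h5 a ha).trans ?_⟩
  · calc _ ≤ (33 * D) ^ 4 := Nat.pow_le_pow_left (by omega) 4
      _ ≤ _ := by rw [mul_pow]; exact Nat.mul_le_mul_right _ (by norm_num)
  · calc _ ≤ (137 * D) ^ 4 := Nat.pow_le_pow_left (by omega) 4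
      _ ≤ _ := by rw [mul_pow]; exact Nat.mul_le_mul_right _ (by norm_num)
  · have h6 : (3 * (2 * (4 * 4 * (D * 2)) + 2) + 1) ^ 3 ≤ (199 * D) ^ 3 :=
      Nat.pow_le_pow_left (by omega) 3
    have h7 : 1 ≤ D ^ 3 := Nat.one_le_pow _ _ hD
    rw [mul_pow] at h6
    omega

open Classical in
lemma groups3 (V P : Finset (Fin 4 → ℤ)) (n : ℕ) (hn : 1 ≤ n) (hP : ∀ a ∈ P, a ⬝ᵥ a = n ^ 2)
    (j : ℕ) :
    ∃ (P' : Finset (Fin 4 → ℤ)) (lab : (Fin 4 → ℤ) → Set (Fin 3 → ℝ)), P' ⊆ P ∧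
      P.card ≤ P'.card + 10 ^ 9 * (2 ^ j) ^ 3 ∧ (P'.image lab).card ≤ 10 ^ 9 * (2 ^ j) ^ 3 ∧
      (∀ U, (2 ^ j) ^ 3 * (P'.filter fun i => lab i = U).card ≤ P.card) ∧
      ∀ v ∈ V, ((P'.filter fun a => On v a ∧
        ∃ a' ∈ P', lab a' = lab a ∧ ¬ On v a').image lab).card ≤ 10 ^ 9 * (2 ^ j) ^ 2 := by
  have hn' : (0 : ℝ) < n := by exact_mod_cast hn
  let q : (Fin 3 → ℝ) → ℝ := fun y => y 0 ^ 2 + y 1 ^ 2 + y 2 ^ 2
  have hq : ∀ y, 1 + q y ≠ 0 := fun y => by positivity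
  obtain ⟨P', lab, h1, h2, h3, h4, h5⟩ := exists_groups (n := 3) (P.erase ![0, 0, 0, n])
    (fun a i => (a i.castSucc : ℝ) / (n - a 3)) j V
    (fun v y => (4 * n * (v 0 * y 0 + v 1 * y 1 + v 2 * y 2) + 2 * n * v 3 * (q y - 1)) / (1 + q y)
      - (v ⬝ᵥ v : ℤ)) (fun v => by
        refine Continuous.sub (Continuous.div ?_ ?_ hq) continuous_const <;> fun_prop)
    (2 * ((2 * (2 * (3 * 3 * 2 ^ (j + 1)) + 2) + 1) ^ 2 + 1))
    (fun δ hδ hδ1 v _ F hF T hT hT' hinj => by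
      have key : ∀ (t : ℝ) (y : Fin 3 → ℝ), 2 * n * v 3 - t ≠ 0 →
          (4 * n * (v 0 * y 0 + v 1 * y 1 + v 2 * y 2) + 2 * n * v 3 * (q y - 1)) / (1 + q y) = t →
          ∑ i, (y i - (-2 * n * v (Fin.castSucc i) / (2 * n * v 3 - t))) ^ 2 =
            4 * n ^ 2 * ((v 0 : ℝ) ^ 2 + v 1 ^ 2 + v 2 ^ 2) / (2 * n * v 3 - t) ^ 2 +
              (2 * n * v 3 + t) / (2 * n * v 3 - t) := by
        intro t y ht h
        rw [div_eq_iff (hq y)] at h
        simp only [Fin.sum_univ_three, q, Fin.castSucc_zero, Fin.castSucc_one,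
          show Fin.castSucc (2 : Fin 3) = (2 : Fin 4) from rfl] at h ⊢
        field_simp
        linear_combination (2 * n * v 3 - t) * h
      have nz : ∀ s : ℝ, |s| = δ → 2 * n * v 3 - (s + (v ⬝ᵥ v : ℤ)) ≠ 0 := fun s hs h => by
        have h1 : s = ((2 * n * v 3 - v ⬝ᵥ v : ℤ) : ℝ) := by push_cast at h ⊢; linarith
        rw [h1, ← Int.cast_abs] at hs
        rw [← hs] at hδ hδ1
        have h2 : (0 : ℤ) < |2 * n * v 3 - v ⬝ᵥ v| := by exact_mod_cast hδ
        have h3 : |2 * n * v 3 - v ⬝ᵥ v| < (1 : ℤ) := by exact_mod_cast hδ1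
        omega
      exact cell_bound_two (k := 2) _ _ _ _ F hF T hT
        (fun x hx => (eq_or_eq_neg_of_abs_eq (hT' x hx)).imp
          (fun h => key _ x (nz δ (abs_of_pos hδ)) (sub_eq_iff_eq_add.1 h))
          (fun h => key _ x (nz (-δ) (by rw [abs_neg, abs_of_pos hδ])) (sub_eq_iff_eq_add.1 h)))
        hinj)
  have hD : 1 ≤ 2 ^ j := Nat.one_le_two_pow
  have e : ∀ v : Fin 4 → ℤ, ∀ a ∈ P', ((4 * n * (v 0 * (a 0 / (n - a 3)) + v 1 * (a 1 / (n - a 3)) +
      v 2 * (a 2 / (n - a 3))) + 2 * n * v 3 * (q (fun i => (a i.castSucc : ℝ) / (n - a 3)) - 1)) /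
      (1 + q (fun i => (a i.castSucc : ℝ) / (n - a 3))) - (v ⬝ᵥ v : ℤ) = 0) ↔ On v a := by
    intro v a ha
    obtain ⟨ha1, ha2⟩ := mem_erase.1 (h1 ha)
    have h6 := hP a ha2
    simp only [dotProduct, Fin.sum_univ_four] at h6
    have h7 : (n : ℝ) - a 3 ≠ 0 := fun h => ha1 (by
      have h8 : a 3 = n := by exact_mod_cast (sub_eq_zero.1 h).symm
      rw [h8] at h6
      ext i
      fin_cases i <;> simp <;> nlinarith [sq_nonneg (a 0), sq_nonneg (a 1), sq_nonneg (a 2)])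
    have h8 : (a 0 : ℝ) * a 0 + a 1 * a 1 + a 2 * a 2 + a 3 * a 3 = n ^ 2 := by exact_mod_cast h6
    have h9 : q (fun i => (a i.castSucc : ℝ) / (n - a 3)) = (n + a 3) / (n - a 3) := by
      simp only [q, Fin.castSucc_zero, Fin.castSucc_one,
        show Fin.castSucc (2 : Fin 3) = (2 : Fin 4) from rfl]
      field_simp
      linear_combination h8
    have h10 : 1 + ((n : ℝ) + a 3) / (n - a 3) = 2 * n / (n - a 3) := by field_simp; ring
    rw [h9, h10, sub_eq_zero, On, ← Int.cast_inj (α := ℝ), eq_comm, eq_comm (b := ((v ⬝ᵥ v : ℤ) : ℝ))]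
    refine Eq.congr_right ?_
    simp only [dotProduct, Fin.sum_univ_four]
    push_cast
    field_simp
    ring
  rw [mul_comm 3 j, pow_mul] at h4
  rw [pow_succ 2 j] at h2 h3 h5
  generalize 2 ^ j = D at *
  have h7 : 1 ≤ D ^ 3 := Nat.one_le_pow _ _ hD
  refine ⟨P', lab, h1.trans (erase_subset _ _), ?_, h3.trans ?_,
    fun U => (h4 U).trans card_erase_le, fun v hv => le_trans (le_of_eq ?_) ((h5 v hv).trans ?_)⟩
  · have h6 : (3 * 3 * (D * 2) + 1) ^ 3 ≤ (19 * D) ^ 3 := Nat.pow_le_pow_left (by omega) 3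
    have h8 := pred_card_le_card_erase (s := P) (a := ![0, 0, 0, n])
    rw [mul_pow] at h6
    omega
  · calc _ ≤ (61 * D) ^ 3 := Nat.pow_le_pow_left (by omega) 3
      _ ≤ _ := by rw [mul_pow]; exact Nat.mul_le_mul_right _ (by norm_num)
  · congr 2
    refine filter_congr fun a ha => and_congr (e v a ha).symm ?_
    exact exists_congr fun a' => and_congr_right fun ha' => and_congr_right fun _ =>
      (not_congr (e v a' ha')).symm
  · have h6 : (2 * (2 * (3 * 3 * (D * 2)) + 2) + 1) ^ 2 ≤ (77 * D) ^ 2 :=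
      Nat.pow_le_pow_left (by omega) 2
    have h7 : 1 ≤ D ^ 2 := Nat.one_le_pow _ _ hD
    rw [mul_pow] at h6
    omega

variable {P : Finset (Fin 4 → ℤ)} {K : ℕ}

/-- Two distinct hyperplanes have at most `K` common points in `P`. -/
def FewCirc (P : Finset (Fin 4 → ℤ)) (K : ℕ) : Prop :=
  ∀ v v' : Fin 4 → ℤ, v ≠ 0 → v' ≠ 0 → v ≠ v' → (P.filter fun a => On v a ∧ On v' a).card ≤ K

lemma kst (hK : FewCirc P K) {X G : Finset (Fin 4 → ℤ)} (hX : X ⊆ P) (hG : ∀ w ∈ G, w ≠ 0) {k : ℕ}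
    (hk : ∀ w ∈ G, k ≤ 2 * (X.filter fun a => On w a).card) :
    G.card * k ^ 2 ≤ 4 * k * X.card + 8 * K * X.card * G.card := by
  classical
  set I := ∑ a ∈ X, (G.filter fun w => On w a).card with hI
  have hI' : I = ∑ w ∈ G, (X.filter fun a => On w a).card := by
    simp only [hI, card_filter]; exact sum_comm
  have h1 : G.card * k ≤ 2 * I := by
    rw [hI', mul_sum]
    exact card_nsmul_le_sum G _ k hk
  have h2 : ∑ a ∈ X, (G.filter fun w => On w a).card ^ 2 ≤ I + K * G.card ^ 2 := by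
    have h3 : ∑ a ∈ X, (G.filter fun w => On w a).card ^ 2 =
        ∑ w ∈ G, ∑ w' ∈ G, (X.filter fun a => On w a ∧ On w' a).card := by
      simp only [card_filter, sq, sum_mul_sum]
      rw [sum_comm]
      refine sum_congr rfl fun w _ => ?_
      rw [sum_comm]
      refine sum_congr rfl fun w' _ => sum_congr rfl fun a _ => ?_
      rw [ite_and]
      split_ifs <;> rfl
    rw [h3, hI', sq, ← mul_assoc, mul_comm _ G.card, ← smul_eq_mul, ← sum_const, ← sum_add_distrib]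
    refine sum_le_sum fun w hw => ?_
    rw [← add_sum_erase _ _ hw]
    refine add_le_add (card_le_card fun a ha => by simpa using ha) ?_
    refine (sum_le_card_nsmul _ _ K fun w' hw' => ?_).trans ?_
    · obtain ⟨h4, h5⟩ := mem_erase.1 hw'
      exact (card_le_card (filter_subset_filter _ hX)).trans
        (hK w w' (hG w hw) (hG w' h5) h4.symm)
    · rw [smul_eq_mul, mul_comm]; exact Nat.mul_le_mul_left _ card_erase_le
  have h3 : I ^ 2 ≤ X.card * (I + K * G.card ^ 2) :=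
    sq_sum_le_card_mul_sum_sq.trans (Nat.mul_le_mul_left _ h2)
  generalize X.card = m at *
  generalize G.card = g at *
  rcases le_or_gt I (2 * m) with h | h
  · nlinarith [Nat.zero_le (8 * K * m * g)]
  · rcases Nat.eq_zero_or_pos g with rfl | hg
    · simp
    have h4 : I ^ 2 ≤ 2 * m * K * g ^ 2 := by nlinarith
    have h5 : (g * k) ^ 2 ≤ (2 * I) ^ 2 := Nat.pow_le_pow_left h1 2
    have h6 : g * (g * k ^ 2) ≤ g * (8 * K * m * g) := by nlinarith
    exact (Nat.le_of_mul_le_mul_left h6 hg).trans (Nat.le_add_left _ _)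

theorem rich (hK : FewCirc P K) {k : ℕ} (hk : 2 * K ≤ k) (hk0 : 0 < k) (W : Finset (Fin 4 → ℤ))
    (hW : ∀ w ∈ W, w ≠ 0 ∧ k ≤ (P.filter fun a => On w a).card) :
    W.card * k ^ 7 ≤ 10 ^ 52 * (P.card * k ^ 6 + K ^ 3 * P.card ^ 4) := by
  classical
  rcases W.eq_empty_or_nonempty with rfl | ⟨w0, hw0⟩
  · simp
  have hkm : k ≤ P.card := (hW w0 hw0).2.trans (card_filter_le _ _)
  set c := 10 ^ 9 with hc
  have ex : ∃ j, 16 * c * K * P.card ≤ 2 ^ j * k ^ 2 :=
    ⟨16 * c * K * P.card, Nat.lt_two_pow_self.le.trans (Nat.le_mul_of_pos_right _ (by positivity))⟩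
  have hj := Nat.find_spec ex
  have hj' : 2 ^ Nat.find ex = 1 ∨ 2 ^ Nat.find ex * k ^ 2 ≤ 32 * c * K * P.card := by
    rcases h : Nat.find ex with _ | j
    · simp
    · have := Nat.find_min ex (m := j) (by omega)
      right; rw [pow_succ]; nlinarith
  obtain ⟨W', lab, h1, h2, h3, h4, h5⟩ := groups4 W P (Nat.find ex)
  have hD : 0 < 2 ^ Nat.find ex := by positivity
  generalize 2 ^ Nat.find ex = D at *
  rw [← hc] at h2 h3 h5
  let G : Set (Fin 4 → ℝ) → Finset (Fin 4 → ℤ) := fun U => W'.filter fun i => lab i = U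
  let cr : (Fin 4 → ℤ) → Finset (Set (Fin 4 → ℝ)) := fun a =>
    (W'.filter fun w => On w a ∧ ∃ w' ∈ W', lab w' = lab w ∧ ¬ On w' a).image lab
  let X : Set (Fin 4 → ℝ) → Finset (Fin 4 → ℤ) := fun U => P.filter fun a => U ∈ cr a
  have hS : ∑ U ∈ W'.image lab, (X U).card ≤ P.card * (c * D ^ 3) := by
    simp only [X, card_filter]
    rw [sum_comm]
    refine (sum_le_card_nsmul _ _ _ fun a ha => ?_).trans (by rw [smul_eq_mul])
    rw [← card_filter]
    exact (card_le_card fun U hU => (mem_filter.1 hU).2).trans (h5 a ha)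
  have hG : ∀ U, D ^ 4 * ((G U).card * k ^ 2) ≤
      D ^ 4 * k ^ 2 + (4 * k * D ^ 4 + 8 * K * W.card) * (X U).card := by
    intro U
    rcases le_or_gt (G U).card 1 with h | h
    · exact le_add_right (Nat.mul_le_mul_left _ (by nlinarith [Nat.zero_le (k ^ 2)]))
    have h6 := kst hK (X := X U) (G := G U) (filter_subset _ _)
      (fun w hw => (hW w (h1 (mem_filter.1 hw).1)).1) (k := k) fun w hw => by
        obtain ⟨w', hw', hne⟩ := exists_mem_ne h w
        obtain ⟨hw1, hw2⟩ := mem_filter.1 hw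
        obtain ⟨hw1', hw2'⟩ := mem_filter.1 hw'
        have h7 : (P.filter fun a => On w a) ⊆
            (X U).filter (fun a => On w a) ∪ P.filter fun a => On w a ∧ On w' a := by
          intro a ha
          obtain ⟨ha1, ha2⟩ := mem_filter.1 ha
          by_cases h8 : On w' a
          · exact mem_union_right _ (mem_filter.2 ⟨ha1, ha2, h8⟩)
          · refine mem_union_left _ (mem_filter.2 ⟨mem_filter.2 ⟨ha1, mem_image.2
              ⟨w, mem_filter.2 ⟨hw1, ha2, w', hw1', hw2'.trans hw2.symm, h8⟩, hw2⟩⟩, ha2⟩)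
        have h8 := (card_le_card h7).trans (card_union_le _ _)
        have h9 := hK w w' (hW w (h1 hw1)).1 (hW w' (h1 hw1')).1 hne.symm
        have := (hW w (h1 hw1)).2
        omega
    have h7 := Nat.mul_le_mul_left (8 * K * (X U).card) (h4 U)
    have h8 := Nat.mul_le_mul_left (D ^ 4) h6
    change 8 * K * (X U).card * (D ^ 4 * (G U).card) ≤ _ at h7
    nlinarith [Nat.zero_le (D ^ 4 * k ^ 2)]
  have hsum := sum_le_sum fun U (_ : U ∈ W'.image lab) => hG U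
  rw [← mul_sum, ← sum_mul, ← card_eq_sum_card_image, sum_add_distrib, sum_const,
    smul_eq_mul, ← mul_sum] at hsum
  generalize ∑ U ∈ W'.image lab, (X U).card = S at *
  generalize (W'.image lab).card = l at *
  generalize W'.card = n' at *
  generalize W.card = n at *
  generalize P.card = m at *
  clear hG h4 h5 X cr G h1 hW hw0 ex
  have a1 : D ^ 3 * (D * k ^ 2 * n) ≤
      D ^ 3 * (2 * c * D ^ 5 * k ^ 2 + 4 * c * k * D ^ 4 * m + 8 * c * K * m * n) := by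
    have b1 := Nat.mul_le_mul_left (D ^ 4 * k ^ 2) h2
    have b2 := Nat.mul_le_mul_right (D ^ 4 * k ^ 2) h3
    have b3 := Nat.mul_le_mul_left (4 * k * D ^ 4 + 8 * K * n) hS
    nlinarith
  have a2 := Nat.le_of_mul_le_mul_left a1 (by positivity)
  have a3 : D * k * (k * n) ≤ D * k * (4 * c * D ^ 4 * k + 8 * c * D ^ 3 * m) := by
    have b1 := Nat.mul_le_mul_right n hj
    nlinarith
  have a4 := Nat.le_of_mul_le_mul_left a3 (by positivity)
  rcases hj' with rfl | hj'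
  · have b1 : k * n ≤ 10 ^ 52 * m := by omega
    calc n * k ^ 7 = k * n * k ^ 6 := by ring
      _ ≤ 10 ^ 52 * m * k ^ 6 := Nat.mul_le_mul_right _ b1
      _ ≤ _ := by rw [mul_assoc]; exact Nat.mul_le_mul_left _ (Nat.le_add_right _ _)
  · have b1 : k * (D * k) ≤ k * (16 * c * m) := by
      have := Nat.mul_le_mul_left (16 * c * m) hk
      nlinarith
    have b2 := Nat.le_of_mul_le_mul_left b1 hk0
    have b3 : k * n ≤ 72 * c ^ 2 * D ^ 3 * m := by
      have b4 := Nat.mul_le_mul_left (4 * c * D ^ 3) b2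
      have b5 : c * (D ^ 3 * m) ≤ c ^ 2 * (D ^ 3 * m) := Nat.mul_le_mul_right _ (by norm_num [hc])
      nlinarith
    calc n * k ^ 7 = k * n * k ^ 6 := by ring
      _ ≤ 72 * c ^ 2 * D ^ 3 * m * k ^ 6 := Nat.mul_le_mul_right _ b3
      _ = 72 * c ^ 2 * m * (D * k ^ 2) ^ 3 := by ring
      _ ≤ 72 * c ^ 2 * m * (32 * c * K * m) ^ 3 := Nat.mul_le_mul_left _ (Nat.pow_le_pow_left hj' 3)
      _ = 72 * 32 ^ 3 * c ^ 5 * (K ^ 3 * m ^ 4) := by ring
      _ ≤ _ := Nat.mul_le_mul (by norm_num [hc]) (Nat.le_add_left _ _)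

end Pool.Agent.Lib.MP_fb430f_co
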